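import Pool.Agent.Helper60.UN.Defs

/-!
Project UN (MP_0bd1d1_al), module UG: the quadratic extension of a finite field.
-/

set_option autoImplicit false

namespace UN.UG

open Module OG UN

variable {k F : Type*} [Field k] [Field F] [Algebra k F] {σ : F ≃ₐ[k] F} {n : ℕ}

theorem QE_of [Finite k] (s : F ≃ₐ[k] F) (h1 : s ≠ 1) (h2 : finrank k F = 2) : QE s := by
  classical
  have hfd : FiniteDimensional k F := Module.finite_of_finrank_pos (by rw [h2]; norm_num)
  have hF : Finite F := Module.finite_of_finite k
  have hgal : IsGalois k F := inferInstance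
  have hcard : Nat.card (F ≃ₐ[k] F) = 2 := by
    rw [IsGalois.card_aut_eq_finrank, h2]
  have hall : ∀ g : F ≃ₐ[k] F, g = 1 ∨ g = s := by
    intro g
    have hF2 : Fintype (F ≃ₐ[k] F) := Fintype.ofFinite _
    have hc : Fintype.card (F ≃ₐ[k] F) = 2 := by rw [← Nat.card_eq_fintype_card, hcard]
    have h3 : ({1, s} : Finset (F ≃ₐ[k] F)) = Finset.univ := by
      apply Finset.eq_univ_of_card
      rw [hc, Finset.card_pair h1.symm]
    have h4 : g ∈ ({1, s} : Finset (F ≃ₐ[k] F)) := by
      rw [h3]
      exact Finset.mem_univ _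
    simpa using h4
  have hss : s * s = 1 := by
    rcases hall (s * s) with h | h
    · exact h
    · exact absurd (mul_eq_left.1 h) h1
  refine ⟨fun x => ?_, fun x hx => ?_, fun c => ?_, ?_, h2⟩
  · exact DFunLike.congr_fun hss x
  · have h5 : x ∈ Set.range (algebraMap k F) := by
      rw [IsGalois.mem_range_algebraMap_iff_fixed]
      intro g
      rcases hall g with rfl | rfl
      · rfl
      · exact hx
    exact h5
  · obtain ⟨x, hx⟩ := FiniteField.norm_surjective k F c
    refine ⟨x, ?_⟩
    rw [← hx]
    rw [Algebra.norm_eq_prod_automorphisms]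
    have h6 : ∀ (I : Fintype (F ≃ₐ[k] F)), x * s x = ∏ g ∈ @Finset.univ _ I, g x := by
      intro I
      have h3 : @Finset.univ _ I = {1, s} := by
        ext g
        simpa using hall g
      rw [h3, Finset.prod_pair h1.symm]
      rfl
    exact h6 _
  · by_contra h
    push Not at h
    exact h1 (AlgEquiv.ext h)

end UN.UG
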