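import Pool.Agent.Helper60.SY.DMain

/-!
Project UN (MP_0bd1d1_al): unitary groups `GU_{2n}(q)`, Siegel parabolic.  Definitions.
-/

namespace UN

open Module OG

variable {k F : Type*} [Field k] [Field F] [Algebra k F]

/-- What is used of the involution of the quadratic extension `F / k`. -/
structure QE (σ : F ≃ₐ[k] F) : Prop where
  inv : ∀ x, σ (σ x) = x
  fix : ∀ x, σ x = x → ∃ c : k, algebraMap k F c = x
  nrm : ∀ c : k, ∃ x : F, x * σ x = algebraMap k F c
  ne : ∃ x, σ x ≠ x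
  dim : finrank k F = 2

/-- The standard hermitian form on `F^n`. -/
def ip {n : ℕ} (σ : F ≃ₐ[k] F) (x y : Fin n → F) : F := ∑ i, x i * σ (y i)

/-- The standard skew-hermitian form on `F^n × F^n`. -/
def hf {n : ℕ} (σ : F ≃ₐ[k] F) (u v : (Fin n → F) × (Fin n → F)) : F :=
  ip σ u.1 v.2 - ip σ u.2 v.1

/-- The unitary group of the skew-hermitian form. -/
def GUg (n : ℕ) (σ : F ≃ₐ[k] F) :
    Subgroup (((Fin n → F) × (Fin n → F)) ≃ₗ[F] ((Fin n → F) × (Fin n → F))) where
  carrier := {g | ∀ u v, hf σ (g u) (g v) = hf σ u v}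
  one_mem' := fun _ _ => rfl
  mul_mem' := by
    intro g h hg hh u v
    change hf σ (g (h u)) (g (h v)) = hf σ u v
    rw [hg, hh]
  inv_mem' := by
    intro g hg u v
    have h1 : ∀ x, g (g⁻¹ x) = x := fun x => g.apply_symm_apply x
    have h2 := hg (g⁻¹ u) (g⁻¹ v)
    rw [h1, h1] at h2
    exact h2.symm

/-- The Lagrangian subspaces. -/
def Lag (n : ℕ) (σ : F ≃ₐ[k] F) : Set (Submodule F ((Fin n → F) × (Fin n → F))) :=
  {W | finrank F W = n ∧ ∀ u ∈ W, ∀ v ∈ W, hf σ u v = 0}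

/-- Self-adjoint maps. -/
def Her (n : ℕ) (σ : F ≃ₐ[k] F) : Submodule k ((Fin n → F) →ₗ[F] (Fin n → F)) where
  carrier := {S | ∀ x y, ip σ (S x) y = ip σ x (S y)}
  zero_mem' := by
    intro x y
    simp [ip]
  add_mem' := by
    intro a b ha hb x y
    have e1 : ip σ ((a + b) x) y = ip σ (a x) y + ip σ (b x) y := by
      simp [ip, add_mul, Finset.sum_add_distrib]
    have e2 : ip σ x ((a + b) y) = ip σ x (a y) + ip σ x (b y) := by
      simp [ip, mul_add, Finset.sum_add_distrib]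
    rw [e1, e2, ha x y, hb x y]
  smul_mem' := by
    intro c a ha x y
    have e1 : ip σ ((c • a) x) y = algebraMap k F c * ip σ (a x) y := by
      simp [ip, Finset.mul_sum, Algebra.smul_def, mul_assoc]
    have e2 : ip σ x ((c • a) y) = algebraMap k F c * ip σ x (a y) := by
      unfold ip
      rw [Finset.mul_sum]
      refine Finset.sum_congr rfl (fun i _ => ?_)
      have h1 : ((c • a) y) i = algebraMap k F c * (a y) i := by
        rw [LinearMap.smul_apply, Pi.smul_apply, Algebra.smul_def]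
      rw [h1, map_mul, AlgEquiv.commutes]
      ring
    rw [e1, e2, ha x y]

/-- `u ↦ ⟨u, y⟩ x`, linear in `u`. -/
def rk {n : ℕ} (σ : F ≃ₐ[k] F) (x y : Fin n → F) : (Fin n → F) →ₗ[F] (Fin n → F) where
  toFun u := ip σ u y • x
  map_add' u v := by
    have : ip σ (u + v) y = ip σ u y + ip σ v y := by
      simp [ip, add_mul, Finset.sum_add_distrib]
    rw [this, add_smul]
  map_smul' c u := by
    have : ip σ (c • u) y = c * ip σ u y := by
      simp [ip, Finset.mul_sum, mul_assoc]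
    rw [this, mul_smul]
    rfl

/-- The self-adjoint map `u ↦ ⟨u, x⟩ x`. -/
def sqU {n : ℕ} (σ : F ≃ₐ[k] F) (x : Fin n → F) : (Fin n → F) →ₗ[F] (Fin n → F) := rk σ x x

/-- The self-adjoint map `u ↦ ⟨u, y⟩ x + ⟨u, x⟩ y`. -/
def mxU {n : ℕ} (σ : F ≃ₐ[k] F) (x y : Fin n → F) : (Fin n → F) →ₗ[F] (Fin n → F) :=
  rk σ x y + rk σ y x

/-- The Siegel transformation `(x, u) ↦ (x + S u, u)`. -/
def uU {n : ℕ} (S : (Fin n → F) →ₗ[F] (Fin n → F)) :
    ((Fin n → F) × (Fin n → F)) ≃ₗ[F] ((Fin n → F) × (Fin n → F)) :=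
  LinearEquiv.ofLinearMap
    ((LinearMap.fst F (Fin n → F) (Fin n → F) + S ∘ₗ LinearMap.snd F (Fin n → F) (Fin n → F)).prod
      (LinearMap.snd F (Fin n → F) (Fin n → F)))
    ((LinearMap.fst F (Fin n → F) (Fin n → F) - S ∘ₗ LinearMap.snd F (Fin n → F) (Fin n → F)).prod
      (LinearMap.snd F (Fin n → F) (Fin n → F)))
    (by ext x <;> simp)
    (by ext x <;> simp)

theorem uU_apply {n : ℕ} (S : (Fin n → F) →ₗ[F] (Fin n → F))
    (u : (Fin n → F) × (Fin n → F)) : uU S u = (u.1 + S u.2, u.2) := rfl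

/-- The orthogonal space. -/
def prp {n : ℕ} (σ : F ≃ₐ[k] F) (A : Submodule F (Fin n → F)) : Submodule F (Fin n → F) where
  carrier := {u | ∀ a ∈ A, ip σ a u = 0}
  zero_mem' := by
    intro a _
    simp [ip]
  add_mem' := by
    intro u v hu hv a ha
    have : ip σ a (u + v) = ip σ a u + ip σ a v := by
      simp [ip, mul_add, Finset.sum_add_distrib]
    rw [this, hu a ha, hv a ha, add_zero]
  smul_mem' := by
    intro c u hu a ha
    have : ip σ a (c • u) = σ c * ip σ a u := by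
      simp only [ip, Pi.smul_apply, smul_eq_mul, map_mul, Finset.mul_sum]
      exact Finset.sum_congr rfl (fun i _ => by ring)
    rw [this, hu a ha, mul_zero]

/-- The base point of `A`. -/
def bpU {n : ℕ} (σ : F ≃ₐ[k] F) (A : Submodule F (Fin n → F)) :
    Submodule F ((Fin n → F) × (Fin n → F)) :=
  A.prod (prp σ A)

/-- `g'` is the inverse adjoint of `g`. -/
def IsAdj {n : ℕ} (σ : F ≃ₐ[k] F) (g g' : (Fin n → F) ≃ₗ[F] (Fin n → F)) : Prop :=
  ∀ x u, ip σ (g x) (g' u) = ip σ x u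

/-- The Levi transformation. -/
def gU {n : ℕ} (g g' : (Fin n → F) ≃ₗ[F] (Fin n → F)) :
    ((Fin n → F) × (Fin n → F)) ≃ₗ[F] ((Fin n → F) × (Fin n → F)) :=
  g.prodCongr g'

theorem gU_apply {n : ℕ} (g g' : (Fin n → F) ≃ₗ[F] (Fin n → F))
    (u : (Fin n → F) × (Fin n → F)) : gU g g' u = (g u.1, g' u.2) := rfl

end UN
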