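import Pool.Agent.Helper60.UN.Defs

/-!
Project UN (MP_0bd1d1_al), module UA: the hermitian dot product, inverse adjoints,
orthogonal spaces.
-/

namespace UN.UA

open Module OG UN

variable {k F : Type*} [Field k] [Field F] [Algebra k F] {σ : F ≃ₐ[k] F} {n : ℕ}

theorem ip_add_left (x y z : Fin n → F) : ip σ (x + y) z = ip σ x z + ip σ y z := by
  simp [ip, add_mul, Finset.sum_add_distrib]

theorem ip_add_right (x y z : Fin n → F) : ip σ x (y + z) = ip σ x y + ip σ x z := by
  simp [ip, mul_add, Finset.sum_add_distrib]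

theorem ip_smul_left (c : F) (x y : Fin n → F) : ip σ (c • x) y = c * ip σ x y := by
  simp [ip, Finset.mul_sum, mul_assoc]

theorem ip_smul_right (c : F) (x y : Fin n → F) : ip σ x (c • y) = σ c * ip σ x y := by
  simp only [ip, Pi.smul_apply, smul_eq_mul, map_mul, Finset.mul_sum]
  exact Finset.sum_congr rfl (fun i _ => by ring)

theorem ip_symm (h : QE σ) (x y : Fin n → F) : ip σ y x = σ (ip σ x y) := by
  simp only [ip, map_sum, map_mul, h.inv]
  exact Finset.sum_congr rfl (fun i _ => mul_comm _ _)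

theorem ip_single_right (x : Fin n → F) (i : Fin n) : ip σ x (Pi.single i 1) = x i := by
  unfold ip
  rw [Finset.sum_eq_single i]
  · simp
  · intro j _ hj
    rw [Pi.single_eq_of_ne hj, map_zero, mul_zero]
  · intro hi
    exact absurd (Finset.mem_univ i) hi

theorem ip_single_left (y : Fin n → F) (i : Fin n) : ip σ (Pi.single i 1) y = σ (y i) := by
  unfold ip
  rw [Finset.sum_eq_single i]
  · simp
  · intro j _ hj
    rw [Pi.single_eq_of_ne hj, zero_mul]
  · intro hi
    exact absurd (Finset.mem_univ i) hi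

theorem ip_nondeg (x : Fin n → F) (hx : ∀ y, ip σ x y = 0) : x = 0 := by
  funext i
  rw [← ip_single_right (σ := σ) x i, hx]
  rfl

theorem ip_nondeg_right (y : Fin n → F) (hy : ∀ x, ip σ x y = 0) : y = 0 := by
  funext i
  have h1 := hy (Pi.single i 1)
  rw [ip_single_left] at h1
  exact (map_eq_zero σ).1 h1

theorem ip_sub_right (x y z : Fin n → F) : ip σ x (y - z) = ip σ x y - ip σ x z := by
  simp [ip, mul_sub, Finset.sum_sub_distrib]

theorem ip_ext_right (y z : Fin n → F) (hy : ∀ x, ip σ x y = ip σ x z) : y = z := by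
  have h1 : y - z = 0 := by
    refine ip_nondeg_right (σ := σ) (y - z) (fun x => ?_)
    rw [ip_sub_right, hy x, sub_self]
  exact sub_eq_zero.1 h1

/-- The adjoint of a linear map. -/
noncomputable def adj (σ : F ≃ₐ[k] F) (f : (Fin n → F) →ₗ[F] (Fin n → F)) (h : QE σ) :
    (Fin n → F) →ₗ[F] (Fin n → F) where
  toFun u := fun i => σ (ip σ (f (Pi.single i 1)) u)
  map_add' u v := by
    funext i
    change σ (ip σ (f (Pi.single i 1)) (u + v))
      = σ (ip σ (f (Pi.single i 1)) u) + σ (ip σ (f (Pi.single i 1)) v)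
    rw [ip_add_right, map_add]
  map_smul' c u := by
    funext i
    change σ (ip σ (f (Pi.single i 1)) (c • u)) = c * σ (ip σ (f (Pi.single i 1)) u)
    rw [ip_smul_right, map_mul, h.inv]

theorem adj_apply (f : (Fin n → F) →ₗ[F] (Fin n → F)) (h : QE σ) (u : Fin n → F) (i : Fin n) :
    adj σ f h u i = σ (ip σ (f (Pi.single i 1)) u) := rfl

theorem ip_sum_left {ι : Type*} (s : Finset ι) (x : ι → Fin n → F) (y : Fin n → F) :
    ip σ (∑ i ∈ s, x i) y = ∑ i ∈ s, ip σ (x i) y := by
  classical
  induction s using Finset.induction_on with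
  | empty => simp [ip]
  | insert a s ha ih => rw [Finset.sum_insert ha, Finset.sum_insert ha, ip_add_left, ih]

theorem ip_adj (f : (Fin n → F) →ₗ[F] (Fin n → F)) (h : QE σ) (x u : Fin n → F) :
    ip σ x (adj σ f h u) = ip σ (f x) u := by
  have h1 : x = ∑ i, x i • (Pi.single i (1 : F) : Fin n → F) := by
    funext j
    rw [Finset.sum_apply, Finset.sum_eq_single j]
    · simp
    · intro b _ hb
      rw [Pi.smul_apply, Pi.single_eq_of_ne (Ne.symm hb), smul_zero]
    · intro hj
      exact absurd (Finset.mem_univ j) hj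
  have h2 : f x = ∑ i, x i • f (Pi.single i (1 : F)) := by
    conv_lhs => rw [h1]
    rw [map_sum]
    exact Finset.sum_congr rfl (fun i _ => map_smul f _ _)
  rw [h2, ip_sum_left]
  unfold ip
  refine Finset.sum_congr rfl (fun i _ => ?_)
  rw [adj_apply, h.inv]
  exact (ip_smul_left _ _ _).symm

theorem exists_adj (h : QE σ) (g : (Fin n → F) ≃ₗ[F] (Fin n → F)) :
    ∃ g', IsAdj σ g g' := by
  have h1 : (adj σ (g.symm : (Fin n → F) →ₗ[F] (Fin n → F)) h) ∘ₗ
      (adj σ (g : (Fin n → F) →ₗ[F] (Fin n → F)) h) = LinearMap.id := by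
    apply LinearMap.ext
    intro u
    refine ip_ext_right (σ := σ) _ _ (fun x => ?_)
    rw [LinearMap.comp_apply, ip_adj, ip_adj]
    simp
  have h2 : (adj σ (g : (Fin n → F) →ₗ[F] (Fin n → F)) h) ∘ₗ
      (adj σ (g.symm : (Fin n → F) →ₗ[F] (Fin n → F)) h) = LinearMap.id := by
    apply LinearMap.ext
    intro u
    refine ip_ext_right (σ := σ) _ _ (fun x => ?_)
    rw [LinearMap.comp_apply, ip_adj, ip_adj]
    simp
  refine ⟨LinearEquiv.ofLinearMap _ _ h1 h2, fun x u => ?_⟩
  change ip σ (g x) (adj σ (g.symm : (Fin n → F) →ₗ[F] (Fin n → F)) h u) = ip σ x u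
  rw [ip_adj]
  simp

theorem adj_inv (g g' : (Fin n → F) ≃ₗ[F] (Fin n → F)) (hg : IsAdj σ g g') :
    IsAdj σ g⁻¹ g'⁻¹ := by
  intro x u
  have h1 := hg (g⁻¹ x) (g'⁻¹ u)
  have h2 : g (g⁻¹ x) = x := g.apply_symm_apply x
  have h3 : g' (g'⁻¹ u) = u := g'.apply_symm_apply u
  rw [h2, h3] at h1
  exact h1.symm

/-- The dot product. -/
def dotB (F : Type*) [Field F] (n : ℕ) : LinearMap.BilinForm F (Fin n → F) :=
  LinearMap.mk₂ F (fun x y => ∑ i, x i * y i)
    (fun x y z => by simp [add_mul, Finset.sum_add_distrib])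
    (fun c x y => by simp [Finset.mul_sum, mul_assoc])
    (fun x y z => by simp [mul_add, Finset.sum_add_distrib])
    (fun c x y => by
      simp only [Pi.smul_apply, smul_eq_mul, Finset.mul_sum]
      exact Finset.sum_congr rfl (fun i _ => by ring))

theorem dotB_apply (x y : Fin n → F) : dotB F n x y = ∑ i, x i * y i := rfl

theorem dotB_single (x : Fin n → F) (i : Fin n) : dotB F n x (Pi.single i 1) = x i := by
  rw [dotB_apply, Finset.sum_eq_single i]
  · simp
  · intro j _ hj
    rw [Pi.single_eq_of_ne hj, mul_zero]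
  · intro hi
    exact absurd (Finset.mem_univ i) hi

theorem dotB_comm (x y : Fin n → F) : dotB F n x y = dotB F n y x := by
  rw [dotB_apply, dotB_apply]
  exact Finset.sum_congr rfl (fun i _ => mul_comm _ _)

theorem dotB_nondeg : (dotB F n).Nondegenerate := by
  constructor
  · intro x hx
    funext i
    rw [← dotB_single x i, hx]
    rfl
  · intro y hy
    funext i
    rw [← dotB_single y i, dotB_comm, hy]
    rfl

/-- The coordinatewise involution. -/
def sg (σ : F ≃ₐ[k] F) (n : ℕ) : (Fin n → F) ≃+ (Fin n → F) where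
  toFun u := fun i => σ (u i)
  invFun u := fun i => σ.symm (u i)
  left_inv u := by
    funext i
    simp
  right_inv u := by
    funext i
    simp
  map_add' u v := by
    funext i
    simp

theorem sg_apply (u : Fin n → F) (i : Fin n) : sg σ n u i = σ (u i) := rfl

theorem sg_smul (c : F) (u : Fin n → F) : sg σ n (c • u) = σ c • sg σ n u := by
  funext i
  simp [sg_apply]

theorem ip_eq_dotB (x u : Fin n → F) : ip σ x u = dotB F n x (sg σ n u) := rfl

theorem mem_prp (A : Submodule F (Fin n → F)) (u : Fin n → F) :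
    u ∈ prp σ A ↔ ∀ a ∈ A, ip σ a u = 0 := Iff.rfl

theorem mem_prp_iff (A : Submodule F (Fin n → F)) (u : Fin n → F) :
    u ∈ prp σ A ↔ sg σ n u ∈ (dotB F n).orthogonal A := by
  rw [mem_prp, LinearMap.BilinForm.mem_orthogonal_iff]
  rfl

/-- The orthogonal space is a semilinear image. -/
def prpEquiv (σ : F ≃ₐ[k] F) (A : Submodule F (Fin n → F)) :
    prp σ A ≃+ (dotB F n).orthogonal A where
  toFun u := ⟨sg σ n u.1, (mem_prp_iff A u.1).1 u.2⟩
  invFun v := ⟨(sg σ n).symm v.1, (mem_prp_iff A _).2 (by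
    rw [AddEquiv.apply_symm_apply]
    exact v.2)⟩
  left_inv u := by
    apply Subtype.ext
    exact (sg σ n).symm_apply_apply _
  right_inv v := by
    apply Subtype.ext
    exact (sg σ n).apply_symm_apply _
  map_add' u v := by
    apply Subtype.ext
    exact (sg σ n).map_add _ _

theorem prp_finrank_eq (A : Submodule F (Fin n → F)) :
    finrank F (prp σ A) = finrank F ((dotB F n).orthogonal A) := by
  have h1 := rank_eq_of_equiv_equiv (R := F) (R' := F) (M := prp σ A)
    (M₁ := (dotB F n).orthogonal A) (fun x => σ x) (prpEquiv σ A) σ.bijective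
    (fun r m => by
      apply Subtype.ext
      exact sg_smul r m.1)
  unfold finrank
  rw [h1]

theorem prp_finrank (h : QE σ) (A : Submodule F (Fin n → F)) :
    finrank F A + finrank F (prp σ A) = n := by
  have h1 := LinearMap.BilinForm.finrank_orthogonal (dotB_nondeg (F := F) (n := n)) A
  rw [prp_finrank_eq, h1, Module.finrank_fin_fun]
  have h2 := Submodule.finrank_le A
  rw [Module.finrank_fin_fun] at h2
  omega

theorem le_prp_prp (h : QE σ) (A : Submodule F (Fin n → F)) : A ≤ prp σ (prp σ A) := by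
  intro a ha u hu
  rw [ip_symm h a u, (mem_prp A u).1 hu a ha, map_zero]

theorem prp_prp (h : QE σ) (A : Submodule F (Fin n → F)) : prp σ (prp σ A) = A := by
  symm
  apply Submodule.eq_of_le_of_finrank_eq (le_prp_prp h A)
  have h1 := prp_finrank h A
  have h2 := prp_finrank h (prp σ A)
  omega

theorem prp_smul (g g' : (Fin n → F) ≃ₗ[F] (Fin n → F)) (hg : IsAdj σ g g')
    (A : Submodule F (Fin n → F)) : prp σ (g • A) = g' • prp σ A := by
  ext u
  rw [mem_smul, mem_prp]
  constructor
  · intro hu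
    refine ⟨g'⁻¹ u, ?_, g'.apply_symm_apply u⟩
    intro a ha
    have h1 := hu (g a) ((mem_smul g A (g a)).2 ⟨a, ha, rfl⟩)
    have h3 : g' (g'⁻¹ u) = u := g'.apply_symm_apply u
    have h2 := hg a (g'⁻¹ u)
    rw [h3] at h2
    rw [← h2, h1]
  · rintro ⟨w, hw, rfl⟩ x hx
    obtain ⟨a, ha, rfl⟩ := (mem_smul g A x).1 hx
    rw [hg a w]
    exact hw a ha

end UN.UA
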