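import Pool.Agent.Helper60.UN.Defs

/-!
Project UN (MP_0bd1d1_al), module UB: the basic facts on Siegel and Levi transformations.
-/

set_option autoImplicit false

namespace UN.UB

open Module OG UN

variable {k F : Type*} [Field k] [Field F] [Algebra k F] {σ : F ≃ₐ[k] F} {n : ℕ}

theorem ipAddL (x y z : Fin n → F) : ip σ (x + y) z = ip σ x z + ip σ y z := by
  simp [ip, add_mul, Finset.sum_add_distrib]

theorem ipAddR (x y z : Fin n → F) : ip σ x (y + z) = ip σ x y + ip σ x z := by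
  simp [ip, mul_add, Finset.sum_add_distrib]

theorem ipSmulL (c : F) (x y : Fin n → F) : ip σ (c • x) y = c * ip σ x y := by
  simp [ip, Finset.mul_sum, mul_assoc]

theorem ipSmulR (c : F) (x y : Fin n → F) : ip σ x (c • y) = σ c * ip σ x y := by
  simp only [ip, Pi.smul_apply, smul_eq_mul, map_mul, Finset.mul_sum]
  exact Finset.sum_congr rfl (fun i _ => by ring)

theorem ipSymm (h : QE σ) (x y : Fin n → F) : ip σ y x = σ (ip σ x y) := by
  simp only [ip, map_sum, map_mul]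
  refine Finset.sum_congr rfl (fun i _ => ?_)
  rw [h.inv, mul_comm]

theorem uU_mem (h : QE σ) (S : (Fin n → F) →ₗ[F] (Fin n → F)) (hS : S ∈ Her n σ) :
    uU S ∈ GUg n σ := by
  intro u v
  have hS' : ∀ x y, ip σ (S x) y = ip σ x (S y) := hS
  rw [uU_apply, uU_apply]
  simp only [hf]
  rw [ipAddL, ipAddR, hS' u.2 v.2]
  ring

theorem uU_add (S T : (Fin n → F) →ₗ[F] (Fin n → F)) : uU (S + T) = uU S * uU T := by
  refine LinearEquiv.ext (fun u => ?_)
  rw [LinearEquiv.mul_apply, uU_apply, uU_apply, uU_apply]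
  refine Prod.ext ?_ rfl
  change u.1 + (S + T) u.2 = (u.1 + T u.2) + S u.2
  rw [LinearMap.add_apply]
  abel

theorem gU_mem (h : QE σ) (g g' : (Fin n → F) ≃ₗ[F] (Fin n → F)) (hg : IsAdj σ g g') :
    gU g g' ∈ GUg n σ := by
  intro u v
  rw [gU_apply, gU_apply]
  simp only [hf]
  rw [hg, ipSymm h (g v.1) (g' u.2), hg, ← ipSymm h]

theorem gU_inv (g g' : (Fin n → F) ≃ₗ[F] (Fin n → F)) : (gU g g')⁻¹ = gU g⁻¹ g'⁻¹ := rfl

theorem conjU_mem (h : QE σ) (g g' : (Fin n → F) ≃ₗ[F] (Fin n → F)) (hg : IsAdj σ g g')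
    (S : (Fin n → F) →ₗ[F] (Fin n → F)) (hS : S ∈ Her n σ) :
    (g : (Fin n → F) →ₗ[F] (Fin n → F)) ∘ₗ S ∘ₗ (g'.symm : (Fin n → F) →ₗ[F] (Fin n → F))
      ∈ Her n σ := by
  intro u v
  have hS' : ∀ x y, ip σ (S x) y = ip σ x (S y) := hS
  change ip σ (g (S (g'.symm u))) v = ip σ u (g (S (g'.symm v)))
  have e1 : ip σ (g (S (g'.symm u))) v = ip σ (S (g'.symm u)) (g'.symm v) := by
    conv_lhs => rw [← g'.apply_symm_apply v]
    rw [hg]
  have e2 : ip σ u (g (S (g'.symm v))) = ip σ (g'.symm u) (S (g'.symm v)) := by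
    conv_lhs => rw [← g'.apply_symm_apply u]
    rw [ipSymm h (g (S (g'.symm v))) (g' (g'.symm u)), hg, ← ipSymm h]
  rw [e1, e2, hS']

theorem gU_conj (g g' : (Fin n → F) ≃ₗ[F] (Fin n → F)) (S : (Fin n → F) →ₗ[F] (Fin n → F)) :
    gU g g' * uU S * (gU g g')⁻¹
      = uU ((g : (Fin n → F) →ₗ[F] (Fin n → F)) ∘ₗ S ∘ₗ
        (g'.symm : (Fin n → F) →ₗ[F] (Fin n → F))) := by
  refine LinearEquiv.ext (fun u => ?_)
  rw [LinearEquiv.mul_apply, LinearEquiv.mul_apply, gU_inv, gU_apply, uU_apply, uU_apply,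
    gU_apply]
  refine Prod.ext ?_ ?_
  · change g (g.symm u.1 + S (g'.symm u.2)) = u.1 + g (S (g'.symm u.2))
    rw [map_add, g.apply_symm_apply]
  · change g' (g'.symm u.2) = u.2
    exact g'.apply_symm_apply _

theorem sqU_mem (h : QE σ) (x : Fin n → F) : sqU σ x ∈ Her n σ := by
  intro u v
  change ip σ (ip σ u x • x) v = ip σ u (ip σ v x • x)
  rw [ipSmulL, ipSmulR, ← ipSymm h]
  ring

theorem mxU_mem (h : QE σ) (x y : Fin n → F) : mxU σ x y ∈ Her n σ := by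
  intro u v
  change ip σ (ip σ u y • x + ip σ u x • y) v = ip σ u (ip σ v y • x + ip σ v x • y)
  rw [ipAddL, ipAddR, ipSmulL, ipSmulL, ipSmulR, ipSmulR, ← ipSymm h, ← ipSymm h]
  ring

theorem sqU_conj (h : QE σ) (g g' : (Fin n → F) ≃ₗ[F] (Fin n → F)) (hg : IsAdj σ g g')
    (x : Fin n → F) :
    (g : (Fin n → F) →ₗ[F] (Fin n → F)) ∘ₗ sqU σ x ∘ₗ
      (g'.symm : (Fin n → F) →ₗ[F] (Fin n → F)) = sqU σ (g x) := by
  refine LinearMap.ext (fun u => ?_)
  change g (ip σ (g'.symm u) x • x) = ip σ u (g x) • g x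
  rw [map_smul]
  congr 1
  conv_rhs => rw [← g'.apply_symm_apply u]
  rw [ipSymm h (g x) (g' (g'.symm u)), hg, ← ipSymm h]

theorem sqU_add (x y : Fin n → F) : sqU σ (x + y) = sqU σ x + sqU σ y + mxU σ x y := by
  refine LinearMap.ext (fun u => ?_)
  change ip σ u (x + y) • (x + y)
    = ip σ u x • x + ip σ u y • y + (ip σ u y • x + ip σ u x • y)
  rw [ipAddR, add_smul, smul_add, smul_add]
  abel

theorem sqU_smul (c : F) (d : k) (hcd : c * σ c = algebraMap k F d) (x : Fin n → F) :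
    sqU σ (c • x) = d • sqU σ x := by
  refine LinearMap.ext (fun u => ?_)
  change ip σ u (c • x) • (c • x) = d • (ip σ u x • x)
  rw [ipSmulR, smul_smul, ← algebraMap_smul F d, smul_smul, ← hcd]
  congr 1
  ring

theorem mxU_smul (h : QE σ) (c : F) (x y : Fin n → F) :
    mxU σ (c • x) y = mxU σ x (σ c • y) := by
  refine LinearMap.ext (fun u => ?_)
  change ip σ u y • (c • x) + ip σ u (c • x) • y
    = ip σ u (σ c • y) • x + ip σ u x • (σ c • y)
  rw [ipSmulR, ipSmulR, h.inv, smul_smul, smul_smul]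
  congr 1
  · congr 1
    ring
  · congr 1
    ring

theorem mxU_self (c : F) (d : k) (hcd : c + σ c = algebraMap k F d) (x : Fin n → F) :
    mxU σ (c • x) x = d • sqU σ x := by
  refine LinearMap.ext (fun u => ?_)
  change ip σ u x • (c • x) + ip σ u (c • x) • x = d • (ip σ u x • x)
  rw [ipSmulR, ← algebraMap_smul F d, smul_smul, smul_smul, ← add_smul, ← hcd]
  congr 1
  ring

theorem bpU_smul (g g' : (Fin n → F) ≃ₗ[F] (Fin n → F)) (hg : IsAdj σ g g')
    (A : Submodule F (Fin n → F)) : gU g g' • bpU σ A = bpU σ (g • A) := by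
  ext u
  constructor
  · rintro ⟨w, hw, rfl⟩
    have hw' : w.1 ∈ A ∧ w.2 ∈ prp σ A := Submodule.mem_prod.mp hw
    refine Submodule.mem_prod.mpr ⟨⟨w.1, hw'.1, rfl⟩, ?_⟩
    rintro a ⟨b, hb, rfl⟩
    have := hg b w.2
    exact this.trans (hw'.2 b hb)
  · intro hu
    have hu' : u.1 ∈ g • A ∧ u.2 ∈ prp σ (g • A) := Submodule.mem_prod.mp hu
    obtain ⟨⟨b, hb, hbu⟩, h2⟩ := hu'
    refine ⟨(b, g'.symm u.2), Submodule.mem_prod.mpr ⟨hb, ?_⟩, ?_⟩
    · intro a ha
      change ip σ a (g'.symm u.2) = 0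
      rw [← hg a (g'.symm u.2), g'.apply_symm_apply]
      exact h2 (g a) ⟨a, ha, rfl⟩
    · change (g b, g' (g'.symm u.2)) = u
      rw [g'.apply_symm_apply]
      exact Prod.ext hbu rfl

theorem Lag_stb : Stb (GUg n σ : Set (((Fin n → F) × (Fin n → F)) ≃ₗ[F]
    ((Fin n → F) × (Fin n → F)))) (Lag n σ) := by
  have key : ∀ g ∈ GUg n σ, ∀ W : Submodule F ((Fin n → F) × (Fin n → F)),
      W ∈ Lag n σ → g • W ∈ Lag n σ := by
    rintro g hg W ⟨h1, h2⟩
    refine ⟨?_, ?_⟩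
    · exact (LinearEquiv.finrank_map_eq g W).trans h1
    · rintro u ⟨u', hu', rfl⟩ v ⟨v', hv', rfl⟩
      exact (hg u' v').trans (h2 u' hu' v' hv')
  intro g hg W
  constructor
  · intro hW
    have := key g⁻¹ ((GUg n σ).inv_mem hg) _ hW
    rwa [inv_smul_smul] at this
  · exact key g hg W

theorem stU (h : QE σ) (A : Submodule F (Fin n → F)) (a : Fin n → F) (ha : a ∈ A)
    (x : Fin n → F) (c : k) : uU (c • mxU σ a x) • bpU σ A = bpU σ A := by
  have key : ∀ d : k, ∀ w ∈ bpU σ A, uU (d • mxU σ a x) w ∈ bpU σ A := by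
    intro d w hw
    have hw' : w.1 ∈ A ∧ w.2 ∈ prp σ A := Submodule.mem_prod.mp hw
    rw [uU_apply]
    refine Submodule.mem_prod.mpr ⟨?_, hw'.2⟩
    have h0 : ip σ w.2 a = 0 := by
      rw [ipSymm h a w.2, hw'.2 a ha, map_zero]
    have e : (d • mxU σ a x) w.2 = d • (ip σ w.2 x • a) := by
      change d • (ip σ w.2 x • a + ip σ w.2 a • x) = _
      rw [h0, zero_smul, add_zero]
    change w.1 + (d • mxU σ a x) w.2 ∈ A
    rw [e, ← algebraMap_smul F d]
    exact A.add_mem hw'.1 (A.smul_mem _ (A.smul_mem _ ha))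
  apply le_antisymm
  · rintro u ⟨w, hw, rfl⟩
    exact key c w hw
  · intro w hw
    refine ⟨uU ((-c) • mxU σ a x) w, key (-c) w hw, ?_⟩
    have e : uU (c • mxU σ a x) * uU ((-c) • mxU σ a x) = 1 := by
      rw [← uU_add, ← add_smul, add_neg_cancel, zero_smul]
      refine LinearEquiv.ext (fun u => ?_)
      rw [uU_apply]
      exact Prod.ext (add_zero _) rfl
    exact LinearEquiv.congr_fun e w

end UN.UB
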