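import Pool.Agent.Helper60.UN.Defs

/-!
Project UN (MP_0bd1d1_al), module UC: every Lagrangian subspace is a Siegel translate of a base point.
-/

namespace UN.UC

open Module OG UN

variable {k F : Type*} [Field k] [Field F] [Algebra k F] {σ : F ≃ₐ[k] F} {n : ℕ}

theorem ip_add_l (x y z : Fin n → F) : ip σ (x + y) z = ip σ x z + ip σ y z := by
  simp [ip, add_mul, Finset.sum_add_distrib]

theorem ip_sub_l (x y z : Fin n → F) : ip σ (x - y) z = ip σ x z - ip σ y z := by
  simp [ip, sub_mul, Finset.sum_sub_distrib]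

theorem ip_smul_l (c : F) (x y : Fin n → F) : ip σ (c • x) y = c * ip σ x y := by
  simp [ip, Finset.mul_sum, mul_assoc]

theorem ip_zero_l (x : Fin n → F) : ip σ 0 x = 0 := by
  simp [ip]

theorem ip_zero_r (x : Fin n → F) : ip σ x 0 = 0 := by
  simp [ip]

theorem ip_sym (h : QE σ) (x y : Fin n → F) : ip σ y x = σ (ip σ x y) := by
  unfold ip
  rw [map_sum]
  refine Finset.sum_congr rfl fun i _ => ?_
  rw [map_mul, h.inv]
  ring

theorem ip_nd (x : Fin n → F) (hx : ∀ y, ip σ x y = 0) : x = 0 := by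
  funext j
  have h1 := hx (Pi.single j 1)
  unfold ip at h1
  rw [Finset.sum_eq_single j] at h1
  · rw [Pi.single_eq_same, map_one, mul_one] at h1
    exact h1
  · intro i _ hi
    rw [Pi.single_eq_of_ne hi, map_zero, mul_zero]
  · intro h
    exact absurd (Finset.mem_univ _) h

theorem ip_nd' (h : QE σ) (x : Fin n → F) (hx : ∀ y, ip σ y x = 0) : x = 0 := by
  apply ip_nd (σ := σ)
  intro y
  rw [ip_sym h y x, hx y, map_zero]

/-- the adjoint map -/
def ad (T : (Fin n → F) →ₗ[F] (Fin n → F)) (σ : F ≃ₐ[k] F) : (Fin n → F) →ₗ[F] (Fin n → F) where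
  toFun u := fun i => ip σ u (T fun j => if i = j then 1 else 0)
  map_add' u v := by
    funext i
    exact ip_add_l _ _ _
  map_smul' c u := by
    funext i
    exact ip_smul_l _ _ _

theorem ad_apply (T : (Fin n → F) →ₗ[F] (Fin n → F)) (u : Fin n → F) (i : Fin n) :
    ad T σ u i = ip σ u (T fun j => if i = j then 1 else 0) := rfl

theorem ad_ip (T : (Fin n → F) →ₗ[F] (Fin n → F)) (u v : Fin n → F) :
    ip σ (ad T σ u) v = ip σ u (T v) := by
  have h1 := LinearMap.pi_apply_eq_sum_univ T v
  rw [h1]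
  unfold ip
  have h2 : ∀ j, u j * σ ((∑ i, v i • T fun j => if i = j then 1 else 0) j) =
      ∑ i, u j * (σ (v i) * σ ((T fun j => if i = j then 1 else 0) j)) := by
    intro j
    rw [Finset.sum_apply, map_sum, Finset.mul_sum]
    refine Finset.sum_congr rfl fun i _ => ?_
    rw [Pi.smul_apply, smul_eq_mul, map_mul]
  rw [Finset.sum_congr rfl fun j _ => h2 j, Finset.sum_comm]
  refine Finset.sum_congr rfl fun i _ => ?_
  rw [ad_apply]
  unfold ip
  rw [Finset.sum_mul]
  refine Finset.sum_congr rfl fun j _ => ?_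
  ring

theorem mem_prp (A : Submodule F (Fin n → F)) (u : Fin n → F) :
    u ∈ prp σ A ↔ ∀ a ∈ A, ip σ a u = 0 := Iff.rfl

/-- dimension of the orthogonal space -/
theorem prp_dim (h : QE σ) (A : Submodule F (Fin n → F)) :
    finrank F A + finrank F (prp σ A) = n := by
  classical
  let b := Module.finBasis F A
  let Ψ : (Fin n → F) →ₗ[F] (Fin (finrank F A) → F) :=
    { toFun := fun u i => ip σ u ((b i : A) : Fin n → F)
      map_add' := fun u v => by
        funext i
        exact ip_add_l _ _ _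
      map_smul' := fun c u => by
        funext i
        exact ip_smul_l _ _ _ }
  have hΨ : ∀ u i, Ψ u i = ip σ u ((b i : A) : Fin n → F) := fun u i => rfl
  have hker : LinearMap.ker Ψ = prp σ A := by
    ext u
    rw [LinearMap.mem_ker, mem_prp]
    constructor
    · intro h1 a ha
      have h2 : a = ∑ i, (b.repr ⟨a, ha⟩) i • ((b i : A) : Fin n → F) := by
        have h3 := b.sum_repr ⟨a, ha⟩
        have h4 := congrArg (fun z : A => (z : Fin n → F)) h3
        simp only [Submodule.coe_sum, Submodule.coe_smul] at h4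
        exact h4.symm
      have h5 : ∀ s : Finset (Fin (finrank F A)), ∀ c : Fin (finrank F A) → F,
          ip σ (∑ i ∈ s, c i • ((b i : A) : Fin n → F)) u = 0 := by
        intro s c
        induction s using Finset.induction_on with
        | empty => rw [Finset.sum_empty, ip_zero_l]
        | insert i s hi ih =>
          rw [Finset.sum_insert hi, ip_add_l, ip_smul_l, ih, add_zero, ip_sym h u, ← hΨ, h1]
          rw [Pi.zero_apply, map_zero, mul_zero]
      rw [h2]
      exact h5 _ _
    · intro h1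
      funext i
      rw [hΨ, Pi.zero_apply, ip_sym h ((b i : A) : Fin n → F) u, h1 _ (b i).2, map_zero]
  have hsurj : LinearMap.range Ψ = ⊤ := by
    by_contra hne
    obtain ⟨φ, hφ, hle⟩ := (LinearMap.range Ψ).exists_le_ker_of_lt_top (lt_top_iff_ne_top.mpr hne)
    apply hφ
    let c : Fin (finrank F A) → F := fun i => φ fun j => if i = j then 1 else 0
    have h1 : ∀ u, ∑ i, Ψ u i * c i = 0 := by
      intro u
      have h2 : φ (Ψ u) = 0 := LinearMap.mem_ker.mp (hle ⟨u, rfl⟩)
      rw [LinearMap.pi_apply_eq_sum_univ φ (Ψ u)] at h2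
      exact h2
    have h3 : ∑ i, σ (c i) • ((b i : A) : Fin n → F) = 0 := by
      apply ip_nd' h
      intro u
      have h5 : ∀ s : Finset (Fin (finrank F A)), ip σ u (∑ i ∈ s, σ (c i) • ((b i : A) : Fin n → F))
          = ∑ i ∈ s, Ψ u i * c i := by
        intro s
        induction s using Finset.induction_on with
        | empty => rw [Finset.sum_empty, Finset.sum_empty, ip_zero_r]
        | insert i s hi ih =>
          rw [Finset.sum_insert hi, Finset.sum_insert hi, ip_sym h, ip_add_l, ip_smul_l, map_add,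
            map_mul, h.inv, ← ip_sym h, ← ip_sym h, ih, hΨ]
          ring
      rw [h5]
      exact h1 u
    have h4 : ∑ i, σ (c i) • b i = 0 := by
      apply Subtype.ext
      rw [Submodule.coe_sum]
      exact h3
    have h6 := Fintype.linearIndependent_iff.mp b.linearIndependent (fun i => σ (c i)) h4
    have h7 : ∀ i, c i = 0 := by
      intro i
      have h8 := congrArg σ (h6 i)
      beta_reduce at h8
      rw [h.inv, map_zero] at h8
      exact h8
    apply LinearMap.ext
    intro z
    rw [LinearMap.pi_apply_eq_sum_univ φ z]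
    exact Finset.sum_eq_zero fun i _ => by
      change z i • c i = 0
      rw [h7, smul_zero]
  have h1 := LinearMap.finrank_range_add_finrank_ker Ψ
  rw [hker, hsurj, finrank_top, Module.finrank_fin_fun, Module.finrank_fin_fun] at h1
  exact h1

theorem orbU (h : QE σ) (W : Submodule F ((Fin n → F) × (Fin n → F))) (hW : W ∈ Lag n σ) :
    ∃ A : Submodule F (Fin n → F), ∃ S ∈ Her n σ, W = uU S • bpU σ A := by
  obtain ⟨hdim, hiso⟩ := hW
  have hiso' : ∀ x u y v : Fin n → F, (x, u) ∈ W → (y, v) ∈ W → ip σ x v = ip σ u y := by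
    intro x u y v h1 h2
    have h3 := hiso _ h1 _ h2
    unfold hf at h3
    exact sub_eq_zero.mp h3
  let A : Submodule F (Fin n → F) := W.comap (LinearMap.inl F (Fin n → F) (Fin n → F))
  have hA : ∀ x, x ∈ A ↔ (x, (0 : Fin n → F)) ∈ W := fun x => Iff.rfl
  let p2 : W →ₗ[F] (Fin n → F) := LinearMap.snd F (Fin n → F) (Fin n → F) ∘ₗ W.subtype
  have hp2 : ∀ w : W, p2 w = (w : (Fin n → F) × (Fin n → F)).2 := fun w => rfl
  -- dimension
  have hd : finrank F (LinearMap.range p2) + finrank F A = n := by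
    have h1 := LinearMap.finrank_range_add_finrank_ker p2
    rw [hdim] at h1
    let f : LinearMap.ker p2 →ₗ[F] (Fin n → F) :=
      LinearMap.fst F (Fin n → F) (Fin n → F) ∘ₗ W.subtype ∘ₗ (LinearMap.ker p2).subtype
    have hf : ∀ w, f w = ((w : W) : (Fin n → F) × (Fin n → F)).1 := fun w => rfl
    have hinj : Function.Injective f := by
      intro w w' hww
      rw [hf, hf] at hww
      have h2 : ((w : W) : (Fin n → F) × (Fin n → F)).2 = 0 := LinearMap.mem_ker.mp w.2
      have h3 : ((w' : W) : (Fin n → F) × (Fin n → F)).2 = 0 := LinearMap.mem_ker.mp w'.2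
      exact Subtype.ext (Subtype.ext (Prod.ext hww (h2.trans h3.symm)))
    have hr : LinearMap.range f = A := by
      ext x
      rw [LinearMap.mem_range, hA]
      constructor
      · rintro ⟨w, rfl⟩
        have h2 : ((w : W) : (Fin n → F) × (Fin n → F)).2 = 0 := LinearMap.mem_ker.mp w.2
        have h3 : ((f w, (0 : Fin n → F)) : (Fin n → F) × (Fin n → F)) =
            ((w : W) : (Fin n → F) × (Fin n → F)) := Prod.ext rfl h2.symm
        rw [h3]
        exact (w : W).2
      · intro hx
        exact ⟨⟨⟨(x, 0), hx⟩, LinearMap.mem_ker.mpr rfl⟩, rfl⟩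
    have h4 := LinearMap.finrank_range_of_inj hinj
    rw [hr] at h4
    rw [h4]
    exact h1
  have hB : LinearMap.range p2 = prp σ A := by
    apply Submodule.eq_of_le_of_finrank_eq
    · rintro _ ⟨w, rfl⟩ a ha
      have h1 : ((a, (0 : Fin n → F)) : (Fin n → F) × (Fin n → F)) ∈ W := (hA a).mp ha
      have h2 := hiso' a 0 w.1.1 w.1.2 h1 w.2
      rw [ip_zero_l] at h2
      exact h2
    · have h1 := prp_dim h A
      omega
  -- section
  obtain ⟨g, hg⟩ := (p2.rangeRestrict).exists_rightInverse_of_surjective p2.range_rangeRestrict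
  obtain ⟨P, hP⟩ := (LinearMap.range p2).subtype.exists_leftInverse_of_injective
    (LinearMap.range p2).ker_subtype
  let G : (Fin n → F) →ₗ[F] ((Fin n → F) × (Fin n → F)) := W.subtype ∘ₗ g ∘ₗ P
  have hGW : ∀ u, G u ∈ W := fun u => (g (P u)).2
  let T : (Fin n → F) →ₗ[F] (Fin n → F) := LinearMap.fst F (Fin n → F) (Fin n → F) ∘ₗ G
  let Q : (Fin n → F) →ₗ[F] (Fin n → F) := LinearMap.snd F (Fin n → F) (Fin n → F) ∘ₗ G
  have hTQ : ∀ u, ((T u, Q u) : (Fin n → F) × (Fin n → F)) ∈ W := fun u => hGW u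
  have hQ : ∀ u, u ∈ prp σ A → Q u = u := by
    intro u hu
    rw [← hB] at hu
    have h1 : P u = ⟨u, hu⟩ := LinearMap.congr_fun hP ⟨u, hu⟩
    have h2 : (p2.rangeRestrict (g (P u)) : Fin n → F) = (P u : Fin n → F) :=
      congrArg Subtype.val (LinearMap.congr_fun hg (P u))
    rw [h1] at h2
    have h3 : Q u = (p2.rangeRestrict (g (P u)) : Fin n → F) := rfl
    rw [h3, h1]
    exact h2
  have hTQi : ∀ u v, ip σ (T u) (Q v) = ip σ (Q u) (T v) := fun u v =>
    hiso' _ _ _ _ (hTQ u) (hTQ v)
  let S : (Fin n → F) →ₗ[F] (Fin n → F) := T + ad T σ - ad Q σ ∘ₗ T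
  have hS : ∀ u v, ip σ (S u) v = ip σ (T u) v + ip σ u (T v) - ip σ (T u) (Q v) := by
    intro u v
    have h1 : S u = T u + ad T σ u - ad Q σ (T u) := rfl
    rw [h1, ip_sub_l, ip_add_l, ad_ip, ad_ip]
  have hSH : S ∈ Her n σ := by
    intro u v
    have h1 : ip σ u (S v) = ip σ (T u) v + ip σ u (T v) - ip σ (Q u) (T v) := by
      rw [ip_sym h (S v) u, hS v u, map_sub, map_add, ← ip_sym h, ← ip_sym h, ← ip_sym h]
      ring
    rw [hS, h1, hTQi]
  have hSB : ∀ u, u ∈ prp σ A → S u = T u := by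
    intro u hu
    apply sub_eq_zero.mp
    apply ip_nd (σ := σ)
    intro v
    rw [ip_sub_l, hS, hTQi, hQ u hu]
    ring
  refine ⟨A, S, hSH, ?_⟩
  ext ⟨x, u⟩
  rw [mem_smul]
  constructor
  · intro hxu
    have hu : u ∈ prp σ A := by
      rw [← hB]
      exact ⟨⟨(x, u), hxu⟩, rfl⟩
    have h1 : ((T u, u) : (Fin n → F) × (Fin n → F)) ∈ W := by
      have h2 := hTQ u
      rw [hQ u hu] at h2
      exact h2
    refine ⟨(x - S u, u), ⟨?_, hu⟩, ?_⟩
    · change x - S u ∈ A
      rw [hA, hSB u hu]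
      have h3 := W.sub_mem hxu h1
      rw [Prod.mk_sub_mk, sub_self] at h3
      exact h3
    · rw [uU_apply]
      change (x - S u + S u, u) = (x, u)
      rw [sub_add_cancel]
  · rintro ⟨⟨a, v⟩, ⟨ha, hv⟩, he⟩
    change a ∈ A at ha
    change v ∈ prp σ A at hv
    rw [uU_apply] at he
    change (a + S v, v) = (x, u) at he
    rw [← he, hSB v hv]
    have h1 : ((T v, v) : (Fin n → F) × (Fin n → F)) ∈ W := by
      have h2 := hTQ v
      rw [hQ v hv] at h2
      exact h2
    have h3 := W.add_mem ((hA a).mp ha) h1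
    rw [Prod.mk_add_mk, zero_add] at h3
    exact h3

end UN.UC
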