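import Pool.Agent.Helper60.UN.Defs

namespace UN

open Module OG

variable {k F : Type*} [Field k] [Field F] [Algebra k F] {σ : F ≃ₐ[k] F} {n : ℕ}

namespace UD

theorem sum_sym_mem {M ι : Type*} [AddCommGroup M] [Module k M] [DecidableEq ι]
    (N : Submodule k M) (f : ι → ι → M) (h1 : ∀ i, f i i ∈ N) (h2 : ∀ i j, f i j + f j i ∈ N)
    (s : Finset ι) : ∑ i ∈ s, ∑ j ∈ s, f i j ∈ N := by
  induction s using Finset.induction_on with
  | empty => simp
  | insert a s ha ih =>
    have e1 : ∑ i ∈ insert a s, ∑ j ∈ insert a s, f i j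
        = f a a + ∑ j ∈ s, (f a j + f j a) + ∑ i ∈ s, ∑ j ∈ s, f i j := by
      rw [Finset.sum_insert ha, Finset.sum_insert ha]
      have e2 : ∑ i ∈ s, ∑ j ∈ insert a s, f i j = ∑ i ∈ s, f i a + ∑ i ∈ s, ∑ j ∈ s, f i j := by
        rw [← Finset.sum_add_distrib]
        exact Finset.sum_congr rfl (fun i _ => Finset.sum_insert ha)
      rw [e2, Finset.sum_add_distrib]
      abel
    rw [e1]
    exact N.add_mem (N.add_mem (h1 a) (N.sum_mem (fun j _ => h2 a j))) ih

theorem ip_single (x : Fin n → F) (j : Fin n) : ip σ x (Pi.single j 1) = x j := by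
  unfold ip
  rw [Finset.sum_eq_single j]
  · simp
  · intro i _ hi
    simp [Pi.single_eq_of_ne hi]
  · intro hj
    exact absurd (Finset.mem_univ j) hj

theorem ip_single_left (x : Fin n → F) (i : Fin n) : ip σ (Pi.single i 1) x = σ (x i) := by
  unfold ip
  rw [Finset.sum_eq_single i]
  · simp
  · intro j _ hj
    simp [Pi.single_eq_of_ne hj]
  · intro hj
    exact absurd (Finset.mem_univ i) hj

theorem rk_ap (x y u : Fin n → F) : rk σ x y u = ip σ u y • x := rfl

theorem ip_add_r (x y z : Fin n → F) : ip σ x (y + z) = ip σ x y + ip σ x z := by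
  simp [ip, mul_add, Finset.sum_add_distrib]

theorem ip_smul_r (c : F) (x y : Fin n → F) : ip σ x (c • y) = σ c * ip σ x y := by
  simp only [ip, Pi.smul_apply, smul_eq_mul, map_mul, Finset.mul_sum]
  exact Finset.sum_congr rfl (fun i _ => by ring)

theorem rk_add_left (x y z : Fin n → F) : rk σ (x + y) z = rk σ x z + rk σ y z := by
  apply LinearMap.ext
  intro u
  rw [LinearMap.add_apply, rk_ap, rk_ap, rk_ap, smul_add]

theorem rk_add_right (x y z : Fin n → F) : rk σ x (y + z) = rk σ x y + rk σ x z := by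
  apply LinearMap.ext
  intro u
  rw [LinearMap.add_apply, rk_ap, rk_ap, rk_ap, ip_add_r, add_smul]

theorem rk_smul_left (c : F) (x y : Fin n → F) : rk σ (c • x) y = c • rk σ x y := by
  apply LinearMap.ext
  intro u
  rw [LinearMap.smul_apply, rk_ap, rk_ap, smul_comm]

theorem rk_smul_right (c : F) (x y : Fin n → F) : rk σ x (c • y) = σ c • rk σ x y := by
  apply LinearMap.ext
  intro u
  rw [LinearMap.smul_apply, rk_ap, rk_ap, ip_smul_r, mul_smul]

theorem key (c : F) (x y : Fin n → F) :
    c • rk σ x y + σ c • rk σ y x = sqU σ (c • x + y) - sqU σ (c • x) - sqU σ y := by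
  unfold sqU
  rw [rk_add_left, rk_add_right, rk_add_right, rk_smul_left c x y, rk_smul_right c y x]
  abel

end UD

open UD in
theorem span_sqU (h : QE σ) :
    Her n σ ≤ Submodule.span k (Set.range (sqU (n := n) σ)) := by
  intro S hS
  have hS' : ∀ x y, ip σ (S x) y = ip σ x (S y) := hS
  have hs : ∀ i j, S (Pi.single i 1) j = σ (S (Pi.single j 1) i) := by
    intro i j
    have h1 := hS' (Pi.single i 1) (Pi.single j 1)
    rwa [ip_single, ip_single_left] at h1
  have hS2 : S = ∑ i, ∑ j, S (Pi.single j 1) i • rk σ (Pi.single i 1) (Pi.single j 1) := by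
    apply LinearMap.ext
    intro u
    have h1 : u = ∑ j, u j • (Pi.single j 1 : Fin n → F) := by
      rw [← pi_eq_sum_univ' u]
    have h2 : S u = ∑ j, u j • S (Pi.single j 1) := by
      conv_lhs => rw [h1]
      rw [map_sum]
      exact Finset.sum_congr rfl (fun j _ => by rw [map_smul])
    rw [h2, Finset.sum_comm]
    rw [LinearMap.sum_apply]
    refine Finset.sum_congr rfl (fun j _ => ?_)
    rw [LinearMap.sum_apply]
    have h3 : S (Pi.single j 1) = ∑ i, S (Pi.single j 1) i • (Pi.single i 1 : Fin n → F) :=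
      pi_eq_sum_univ' _
    conv_lhs => rw [h3]
    rw [Finset.smul_sum]
    refine Finset.sum_congr rfl (fun i _ => ?_)
    rw [LinearMap.smul_apply, rk_ap, ip_single, smul_comm]
  rw [hS2]
  apply sum_sym_mem
  · intro i
    obtain ⟨c, hc⟩ := h.fix (S (Pi.single i 1) i) (hs i i).symm
    rw [← hc, algebraMap_smul]
    exact Submodule.smul_mem _ _ (Submodule.subset_span ⟨_, rfl⟩)
  · intro i j
    have h1 : S (Pi.single i 1) j = σ (S (Pi.single j 1) i) := hs i j
    rw [h1, key]
    exact Submodule.sub_mem _ (Submodule.sub_mem _ (Submodule.subset_span ⟨_, rfl⟩)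
      (Submodule.subset_span ⟨_, rfl⟩)) (Submodule.subset_span ⟨_, rfl⟩)

end UN
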