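import Pool.Agent.Helper60.UN.Defs

/-!
Project UN (MP_0bd1d1_al), module UE: the forms `x ↦ l (sqU x)` are diagonalizable.
-/

namespace UN.UE

open Module OG UN

variable {k F : Type*} [Field k] [Field F] [Algebra k F] {σ : F ≃ₐ[k] F} {n : ℕ}

/-- What is used of a hermitian form `H` with its polar form `M`. -/
structure HM (σ : F ≃ₐ[k] F) {V : Type*} [AddCommGroup V] [Module F V] (H : V → k)
    (M : V → V → k) : Prop where
  addl : ∀ x y z, M (x + y) z = M x z + M y z
  symm : ∀ x y, M x y = M y x
  hadd : ∀ x y, H (x + y) = H x + H y + M x y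
  hsmul : ∀ (c : F) (d : k) (x : V), c * σ c = algebraMap k F d → H (c • x) = d * H x
  msmul : ∀ (c : F) (x y : V), M (c • x) y = M x (σ c • y)
  mself : ∀ (c : F) (d : k) (x : V), c + σ c = algebraMap k F d → M (c • x) x = d * H x
  ksmul : ∀ (a : k) (x y : V), M (algebraMap k F a • x) y = a * M x y

section

variable {V : Type*} [AddCommGroup V] [Module F V] {H : V → k} {M : V → V → k}

theorem HM.zero_left (hM : HM σ H M) (y : V) : M 0 y = 0 := by
  have h := hM.addl 0 0 y
  rw [add_zero] at h
  linear_combination -h

theorem HM.sum_left (hM : HM σ H M) {ι : Type*} (s : Finset ι) (f : ι → V) (y : V) :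
    M (∑ i ∈ s, f i) y = ∑ i ∈ s, M (f i) y := by
  classical
  induction s using Finset.induction_on with
  | empty => simp [hM.zero_left]
  | insert a s ha ih => rw [Finset.sum_insert ha, Finset.sum_insert ha, hM.addl, ih]

theorem HM.neg_left (hM : HM σ H M) (x y : V) : M (-x) y = - M x y := by
  have h := hM.addl x (-x) y
  rw [add_neg_cancel, hM.zero_left] at h
  linear_combination -h

/-- every functional is a trace -/
theorem exists_tr (h : QE σ) (φ : F →ₗ[k] k) :
    ∃ a : F, ∀ (c : F) (d : k), c * a + σ (c * a) = algebraMap k F d → φ c = d := by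
  have hfix : ∀ c : F, ∃ d : k, algebraMap k F d = c + σ c := by
    intro c
    apply h.fix
    rw [map_add, h.inv, add_comm]
  choose T hT using hfix
  have hinj : Function.Injective (algebraMap k F) := (algebraMap k F).injective
  have hTadd : ∀ x y, T (x + y) = T x + T y := by
    intro x y
    apply hinj
    rw [map_add, hT, hT, hT, map_add]
    ring
  have hTsmul : ∀ (a : k) (x : F), T (a • x) = a * T x := by
    intro a x
    apply hinj
    rw [map_mul, hT, hT, map_smul, Algebra.smul_def, Algebra.smul_def]
    ring
  let Tl : F →ₗ[k] k :=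
    { toFun := T
      map_add' := hTadd
      map_smul' := hTsmul }
  let Φ : F →ₗ[k] (F →ₗ[k] k) :=
    { toFun := fun a => Tl ∘ₗ (LinearMap.mulRight k a)
      map_add' := by
        intro a b
        apply LinearMap.ext
        intro c
        change T (c * (a + b)) = T (c * a) + T (c * b)
        rw [mul_add, hTadd]
      map_smul' := by
        intro r a
        apply LinearMap.ext
        intro c
        change T (c * (r • a)) = r * T (c * a)
        rw [mul_smul_comm, hTsmul] }
  haveI : FiniteDimensional k F := FiniteDimensional.of_finrank_eq_succ h.dim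
  have hΦ : Function.Injective Φ := by
    rw [injective_iff_map_eq_zero]
    intro a ha
    by_contra ha0
    have h1 : ∀ c : F, T c = 0 := by
      intro c
      have h2 := LinearMap.congr_fun ha (c * a⁻¹)
      change T (c * a⁻¹ * a) = 0 at h2
      rwa [inv_mul_cancel_right₀ ha0] at h2
    have h3 : ∀ c : F, c + σ c = 0 := by
      intro c
      rw [← hT, h1, map_zero]
    have h4 := h3 1
    rw [map_one] at h4
    obtain ⟨x, hx⟩ := h.ne
    apply hx
    have h5 := h3 x
    linear_combination h5 - x * h4
  have hsurj : Function.Surjective Φ :=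
    (LinearMap.injective_iff_surjective_of_finrank_eq_finrank (by
      rw [Module.finrank_linearMap, Module.finrank_self, mul_one])).1 hΦ
  obtain ⟨a, ha⟩ := hsurj φ
  refine ⟨a, fun c d hd => ?_⟩
  rw [← ha]
  change T (c * a) = d
  apply hinj
  rw [hT, hd]

/-- orthogonal bases with values `0, 1` -/
theorem exists_basis (h : QE σ) [FiniteDimensional F V] (hM : HM σ H M) : ∀ (m : ℕ)
    (U : Submodule F V), finrank F U = m → ∃ (d : ℕ) (b : Fin d → V), LinearIndependent F b ∧
      Submodule.span F (Set.range b) = U ∧ (∀ i j, i ≠ j → ∀ c : F, M (c • b i) (b j) = 0) ∧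
      ∀ i, H (b i) = 0 ∨ H (b i) = 1 := by
  intro m
  induction m using Nat.strong_induction_on with
  | _ m ih =>
    intro U hU
    by_cases h0 : ∀ x ∈ U, H x = 0
    · let B := Module.finBasis F U
      refine ⟨finrank F U, fun i => (B i : V), ?_, ?_, ?_, ?_⟩
      · exact (B.linearIndependent.map' U.subtype (Submodule.ker_subtype U))
      · have h1 : Set.range (fun i => (B i : V)) = U.subtype '' (Set.range B) := by
          rw [← Set.range_comp]
          rfl
        rw [h1, Submodule.span_image, B.span_eq, Submodule.map_top, Submodule.range_subtype]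
      · intro i j _ c
        have e1 := hM.hadd (c • (B i : V)) (B j : V)
        have m1 : c • (B i : V) ∈ U := U.smul_mem c (B i).2
        rw [h0 _ (U.add_mem m1 (B j).2), h0 _ m1, h0 _ (B j).2] at e1
        linear_combination -e1
      · intro i
        exact Or.inl (h0 _ (B i).2)
    · push Not at h0
      obtain ⟨x0, hx0U, hx0⟩ := h0
      obtain ⟨c0, hc0⟩ := h.nrm (H x0)⁻¹
      obtain ⟨x, hxU, hx⟩ : ∃ x ∈ U, H x = 1 := by
        refine ⟨c0 • x0, U.smul_mem c0 hx0U, ?_⟩
        rw [hM.hsmul c0 _ x0 hc0, inv_mul_cancel₀ hx0]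
      -- the orthogonal space
      let U' : Submodule F V :=
        { carrier := {y | y ∈ U ∧ ∀ c : F, M (c • y) x = 0}
          zero_mem' := ⟨U.zero_mem, fun c => by rw [smul_zero, hM.zero_left]⟩
          add_mem' := by
            rintro y z ⟨hy, hy'⟩ ⟨hz, hz'⟩
            refine ⟨U.add_mem hy hz, fun c => ?_⟩
            rw [smul_add, hM.addl, hy', hz', add_zero]
          smul_mem' := by
            rintro a y ⟨hy, hy'⟩
            refine ⟨U.smul_mem a hy, fun c => ?_⟩
            rw [smul_smul]
            exact hy' _ }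
      have hle : U' ≤ U := fun y hy => hy.1
      have hxn : x ∉ U' := by
        intro hxx
        obtain ⟨a, ha⟩ := h.ne
        have hz : ∀ c : F, c + σ c = 0 := by
          intro c
          obtain ⟨d, hd⟩ := h.fix (c + σ c) (by rw [map_add, h.inv, add_comm])
          have h1 := hM.mself c d x hd.symm
          rw [hxx.2 c, hx, mul_one] at h1
          rw [← hd, ← h1, map_zero]
        apply ha
        have h4 := hz 1
        rw [map_one] at h4
        linear_combination hz a - a * h4
      have hlt : U' < U := lt_of_le_of_ne hle (fun e => hxn (e ▸ hxU))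
      obtain ⟨d, b, hli, hsp, hort, hval⟩ := ih (finrank F U')
        (hU ▸ Submodule.finrank_lt_finrank_of_lt hlt) U' rfl
      have hbU : ∀ i, b i ∈ U' := fun i => hsp ▸ Submodule.subset_span (Set.mem_range_self i)
      -- decomposition
      have hdec : ∀ y ∈ U, ∃ a : F, y - a • x ∈ U' := by
        intro y hy
        let φ : F →ₗ[k] k :=
          { toFun := fun c => M (c • y) x
            map_add' := by
              intro c c'
              change M ((c + c') • y) x = M (c • y) x + M (c' • y) x
              rw [add_smul, hM.addl]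
            map_smul' := by
              intro r c
              change M ((r • c) • y) x = r * M (c • y) x
              rw [Algebra.smul_def, mul_smul, hM.ksmul] }
        obtain ⟨a, ha⟩ := exists_tr h φ
        refine ⟨a, U.sub_mem hy (U.smul_mem a hxU), fun c => ?_⟩
        obtain ⟨d', hd'⟩ := h.fix (c * a + σ (c * a)) (by rw [map_add, h.inv, add_comm])
        have h1 := ha c d' hd'.symm
        change M (c • y) x = d' at h1
        have h2 := hM.mself (c * a) d' x hd'.symm
        rw [hx, mul_one] at h2
        rw [smul_sub, smul_smul, sub_eq_add_neg, hM.addl, hM.neg_left, h1, h2]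
        ring
      refine ⟨d + 1, Fin.cons x b, ?_, ?_, ?_, ?_⟩
      · rw [linearIndependent_finCons, hsp]
        exact ⟨hli, hxn⟩
      · rw [Fin.range_cons, Submodule.span_insert, hsp]
        apply le_antisymm
        · exact sup_le (by rw [Submodule.span_singleton_le_iff_mem]; exact hxU) hle
        · intro y hy
          obtain ⟨a, ha⟩ := hdec y hy
          rw [Submodule.mem_sup]
          exact ⟨a • x, Submodule.smul_mem _ a (Submodule.mem_span_singleton_self x), _, ha, by
            rw [add_sub_cancel]⟩
      · intro i j hij c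
        refine Fin.cases ?_ ?_ i (motive := fun i => i ≠ j → M (c • (Fin.cons x b : Fin (d + 1) → V) i) ((Fin.cons x b : Fin (d + 1) → V) j) = 0) hij
        · refine Fin.cases ?_ ?_ j (motive := fun j => (0 : Fin (d + 1)) ≠ j → M (c • (Fin.cons x b : Fin (d + 1) → V) 0) ((Fin.cons x b : Fin (d + 1) → V) j) = 0)
          · intro hne
            exact absurd rfl hne
          · intro j _
            rw [Fin.cons_zero, Fin.cons_succ, hM.msmul, hM.symm]
            exact (hbU j).2 _
        · intro i
          refine Fin.cases ?_ ?_ j (motive := fun j => i.succ ≠ j → M (c • (Fin.cons x b : Fin (d + 1) → V) i.succ) ((Fin.cons x b : Fin (d + 1) → V) j) = 0)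
          · intro _
            rw [Fin.cons_zero, Fin.cons_succ]
            exact (hbU i).2 _
          · intro j hne
            rw [Fin.cons_succ, Fin.cons_succ]
            exact hort i j (fun e => hne (by rw [e])) c
      · intro i
        refine Fin.cases ?_ ?_ i
        · rw [Fin.cons_zero]
          exact Or.inr hx
        · intro i
          rw [Fin.cons_succ]
          exact hval i

/-- the value of a diagonal form -/
theorem HM.sum_eq (h : QE σ) (hM : HM σ H M) {d : ℕ} (b : Fin d → V)
    (hb : ∀ i j, i ≠ j → ∀ c : F, M (c • b i) (b j) = 0) (N : F → k)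
    (hN : ∀ c, algebraMap k F (N c) = c * σ c) (a : Fin d → F) (s : Finset (Fin d)) :
    H (∑ i ∈ s, a i • b i) = ∑ i ∈ s, N (a i) * H (b i) := by
  classical
  have hH0 : H 0 = 0 := by
    have h1 := hM.hsmul 0 0 0 (by simp)
    rwa [smul_zero, zero_mul] at h1
  induction s using Finset.induction_on with
  | empty => simpa using hH0
  | insert j s hj ih =>
    have hz : ∑ i ∈ s, M (a i • b i) (a j • b j) = 0 := by
      refine Finset.sum_eq_zero (fun i hi => ?_)
      have hij : i ≠ j := fun e => hj (e ▸ hi)
      have h1 := hM.msmul (σ (a j)) (a i • b i) (b j)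
      rw [h.inv] at h1
      rw [← h1, smul_smul]
      exact hb i j hij _
    rw [Finset.sum_insert hj, Finset.sum_insert hj, hM.hadd, ih, hM.symm, hM.sum_left, hz,
      hM.hsmul (a j) (N (a j)) (b j) (hN _).symm, add_zero]

end

/-- The forms `x ↦ l (sqU x)` satisfy the axioms. -/
theorem hm_of (h : QE σ) (l : Dual k ((Fin n → F) →ₗ[F] (Fin n → F))) :
    HM σ (fun x : Fin n → F => l (sqU σ x)) (fun x y => l (mxU σ x y)) where
  addl x y z := by
    rw [← map_add]
    congr 1
    apply LinearMap.ext
    intro u
    funext i
    simp [mxU, rk, ip, mul_add, Finset.sum_add_distrib]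
    ring
  symm x y := by
    congr 1
    apply LinearMap.ext
    intro u
    simp [mxU, rk, add_comm]
  hadd x y := by
    rw [← map_add, ← map_add]
    congr 1
    apply LinearMap.ext
    intro u
    funext i
    simp [sqU, mxU, rk, ip, mul_add, Finset.sum_add_distrib]
    ring
  hsmul c d x hcd := by
    rw [← smul_eq_mul, ← map_smul]
    congr 1
    apply LinearMap.ext
    intro u
    funext i
    have e1 : ip σ u (c • x) = σ c * ip σ u x := by
      simp only [ip, Pi.smul_apply, smul_eq_mul, map_mul, Finset.mul_sum]
      exact Finset.sum_congr rfl (fun i _ => by ring)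
    change ip σ u (c • x) * (c * x i) = d • (ip σ u x * x i)
    rw [e1, Algebra.smul_def, ← hcd]
    ring
  msmul c x y := by
    congr 1
    apply LinearMap.ext
    intro u
    funext i
    have e1 : ∀ (c : F) (z : Fin n → F), ip σ u (c • z) = σ c * ip σ u z := by
      intro c z
      simp only [ip, Pi.smul_apply, smul_eq_mul, map_mul, Finset.mul_sum]
      exact Finset.sum_congr rfl (fun i _ => by ring)
    change ip σ u y * (c * x i) + ip σ u (c • x) * y i =
      ip σ u (σ c • y) * x i + ip σ u x * (σ c * y i)
    rw [e1, e1, h.inv]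
    ring
  mself c d x hcd := by
    rw [← smul_eq_mul, ← map_smul]
    congr 1
    apply LinearMap.ext
    intro u
    funext i
    have e1 : ip σ u (c • x) = σ c * ip σ u x := by
      simp only [ip, Pi.smul_apply, smul_eq_mul, map_mul, Finset.mul_sum]
      exact Finset.sum_congr rfl (fun i _ => by ring)
    change ip σ u x * (c * x i) + ip σ u (c • x) * x i = d • (ip σ u x * x i)
    rw [e1, Algebra.smul_def, ← hcd]
    ring
  ksmul a x y := by
    rw [← smul_eq_mul, ← map_smul]
    congr 1
    apply LinearMap.ext
    intro u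
    funext i
    have e1 : ip σ u (algebraMap k F a • x) = algebraMap k F a * ip σ u x := by
      simp only [ip, Pi.smul_apply, smul_eq_mul, map_mul, Finset.mul_sum, AlgEquiv.commutes]
      exact Finset.sum_congr rfl (fun i _ => by ring)
    change ip σ u y * (algebraMap k F a * x i) + ip σ u (algebraMap k F a • x) * y i =
      a • (ip σ u y * x i + ip σ u x * y i)
    rw [e1, Algebra.smul_def]
    ring

theorem her_classes (h : QE σ) :
    ∃ c : Dual k ((Fin n → F) →ₗ[F] (Fin n → F)) → (Fin n → Fin 2),
      ∀ l l', c l = c l' → ∃ g : (Fin n → F) ≃ₗ[F] (Fin n → F),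
        ∀ x, l (sqU σ (g x)) = l' (sqU σ x) := by
  classical
  have hex : ∀ l : Dual k ((Fin n → F) →ₗ[F] (Fin n → F)), ∃ b : Basis (Fin n) F (Fin n → F),
      (∀ i j, i ≠ j → ∀ c : F, l (mxU σ (c • b i) (b j)) = 0) ∧
      ∀ i, l (sqU σ (b i)) = 0 ∨ l (sqU σ (b i)) = 1 := by
    intro l
    obtain ⟨d, b, hli, hsp, hort, hval⟩ := exists_basis h (hm_of h l) _ ⊤ rfl
    let B : Basis (Fin d) F (Fin n → F) := Basis.mk hli (by rw [hsp])
    have hd : d = n := by
      have h1 := Module.finrank_eq_card_basis B
      simpa using h1.symm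
    subst hd
    refine ⟨B, ?_, ?_⟩
    · intro i j hij c
      rw [Basis.mk_apply, Basis.mk_apply]
      exact hort i j hij c
    · intro i
      rw [Basis.mk_apply]
      exact hval i
  choose B hB1 hB2 using hex
  have hN : ∀ c : F, ∃ d : k, algebraMap k F d = c * σ c := by
    intro c
    apply h.fix
    rw [map_mul, h.inv, mul_comm]
  choose N hN' using hN
  refine ⟨fun l i => if l (sqU σ (B l i)) = 0 then 0 else 1, ?_⟩
  intro l l' hc
  refine ⟨(B l').equiv (B l) (Equiv.refl _), ?_⟩
  intro x
  have hx : x = ∑ i, (B l').repr x i • B l' i := ((B l').sum_repr x).symm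
  have hgx : ((B l').equiv (B l) (Equiv.refl _)) x = ∑ i, (B l').repr x i • B l i := by
    conv_lhs => rw [hx]
    rw [map_sum]
    refine Finset.sum_congr rfl (fun i _ => ?_)
    rw [map_smul, Basis.equiv_apply, Equiv.refl_apply]
  have e1 := (hm_of h l).sum_eq h (B l) (hB1 l) N hN' ((B l').repr x) Finset.univ
  have e2 := (hm_of h l').sum_eq h (B l') (hB1 l') N hN' ((B l').repr x) Finset.univ
  rw [hgx]
  conv_rhs => rw [hx]
  refine e1.trans (Eq.trans ?_ e2.symm)
  refine Finset.sum_congr rfl (fun i _ => ?_)
  congr 1
  have h3 := congrFun hc i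
  simp only at h3
  rcases hB2 l i with h4 | h4 <;> rcases hB2 l' i with h5 | h5 <;> simp [h4, h5] at h3 ⊢

end UN.UE
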