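import Pool.Agent.Helper60.UN.Defs

/-!
Project UN (MP_0bd1d1_al), module UM: a hermitian space of dimension `2n` with a Lagrangian is the
standard one.
-/

namespace UN.UM

open Module OG UN

variable {k F : Type*} [Field k] [Field F] [Algebra k F] {σ : F ≃ₐ[k] F} {n : ℕ}
  {X : Type*} [AddCommGroup X] [Module F X]

/-- a trace-zero element is of the form `σ c - c` -/
theorem exists_sub (h : QE σ) (s : F) (hs : σ s = -s) : ∃ c : F, c - σ c = -s := by
  obtain ⟨c₀, hc₀⟩ := h.ne
  set δ : F := c₀ - σ c₀ with hδ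
  have hδ0 : δ ≠ 0 := by
    intro h0
    exact hc₀ (sub_eq_zero.1 h0).symm
  have hδσ : σ δ = -δ := by
    rw [hδ, map_sub, h.inv]
    ring
  have hfix : σ (s / δ) = s / δ := by
    rw [map_div₀, hs, hδσ, neg_div_neg_eq]
  obtain ⟨a, ha⟩ := h.fix _ hfix
  refine ⟨-(algebraMap k F a * c₀), ?_⟩
  rw [map_neg, map_mul, AlgEquiv.commutes]
  have : -(algebraMap k F a * c₀) - -(algebraMap k F a * σ c₀) = -(algebraMap k F a * δ) := by
    rw [hδ]; ring
  rw [this, ha, div_mul_cancel₀ _ hδ0]

theorem exists_modelU [FiniteDimensional F X] (h : QE σ) (b : X → X → F)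
    (hadd : ∀ x y z, b (x + y) z = b x z + b y z) (hsmul : ∀ (c : F) x z, b (c • x) z = c * b x z)
    (hsym : ∀ x y, b y x = σ (b x y)) (hnd : ∀ x, (∀ y, b x y = 0) → x = 0)
    (W₀ : Submodule F X) (h1 : finrank F W₀ = n) (h2 : finrank F X = 2 * n)
    (h3 : ∀ u ∈ W₀, ∀ v ∈ W₀, b u v = 0) :
    ∃ (δ : F) (φ : X ≃ₗ[F] ((Fin n → F) × (Fin n → F))), δ ≠ 0 ∧
      ∀ u v, hf σ (φ u) (φ v) = δ * b u v := by
  obtain ⟨c₀, hc₀⟩ := h.ne
  obtain ⟨δ, hδ0, hδσ⟩ : ∃ δ : F, δ ≠ 0 ∧ σ δ = -δ := by
    refine ⟨c₀ - σ c₀, fun h0 => hc₀ (sub_eq_zero.1 h0).symm, ?_⟩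
    rw [map_sub, h.inv]
    ring
  -- right-hand rules for `b`
  have haddr : ∀ x y z, b x (y + z) = b x y + b x z := by
    intro x y z
    rw [hsym (y + z) x, hadd, map_add, ← hsym, ← hsym]
  have hsmulr : ∀ (c : F) x z, b x (c • z) = σ c * b x z := by
    intro c x z
    rw [hsym (c • z) x, hsmul, map_mul, ← hsym]
  -- the skew-hermitian form
  obtain ⟨B, hB⟩ : ∃ B : X → X → F, ∀ x y, B x y = δ * b x y := ⟨_, fun _ _ => rfl⟩
  have Badd : ∀ x y z, B (x + y) z = B x z + B y z := by
    intro x y z; simp only [hB, hadd, mul_add]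
  have Bsmul : ∀ (c : F) x z, B (c • x) z = c * B x z := by
    intro c x z; simp only [hB, hsmul]; ring
  have Baddr : ∀ x y z, B x (y + z) = B x y + B x z := by
    intro x y z; simp only [hB, haddr, mul_add]
  have Bsmulr : ∀ (c : F) x z, B x (c • z) = σ c * B x z := by
    intro c x z; simp only [hB, hsmulr]; ring
  have Bsym : ∀ x y, B y x = - σ (B x y) := by
    intro x y
    rw [hB, hB, map_mul, hδσ, hsym x y]
    ring
  have Bnd : ∀ x, (∀ y, B x y = 0) → x = 0 := by
    intro x hx
    apply hnd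
    intro y
    have := hx y
    rw [hB] at this
    exact (mul_eq_zero.1 this).resolve_left hδ0
  have Bzero : ∀ y, B 0 y = 0 := by
    intro y
    have := Bsmul 0 0 y
    simpa using this
  have Bzeror : ∀ y, B y 0 = 0 := by
    intro y
    have := Bsmulr 0 y 0
    simpa using this
  have Bsum : ∀ (s : Finset (Fin n)) (f : Fin n → X) y, B (∑ i ∈ s, f i) y = ∑ i ∈ s, B (f i) y := by
    intro s f y
    classical
    induction s using Finset.induction_on with
    | empty => simp [Bzero]
    | insert a s ha ih => rw [Finset.sum_insert ha, Finset.sum_insert ha, Badd, ih]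
  have Bsumr : ∀ (s : Finset (Fin n)) (f : Fin n → X) y, B y (∑ i ∈ s, f i) = ∑ i ∈ s, B y (f i) := by
    intro s f y
    classical
    induction s using Finset.induction_on with
    | empty => simp [Bzeror]
    | insert a s ha ih => rw [Finset.sum_insert ha, Finset.sum_insert ha, Baddr, ih]
  -- a basis of the Lagrangian
  let e₀ : Basis (Fin n) F W₀ := (finBasisOfFinrankEq F W₀ h1)
  obtain ⟨e, he⟩ : ∃ e : Fin n → X, ∀ i, e i = (e₀ i : X) := ⟨_, fun _ => rfl⟩
  have heW : ∀ i, e i ∈ W₀ := fun i => by rw [he]; exact (e₀ i).2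
  have heli : LinearIndependent F e := by
    have h4 : LinearIndependent F (fun i => (e₀ i : X)) :=
      e₀.linearIndependent.map' W₀.subtype (Submodule.ker_subtype W₀)
    have h5 : e = fun i => (e₀ i : X) := funext he
    rw [h5]
    exact h4
  have heB : ∀ i j, B (e i) (e j) = 0 := fun i j => by
    rw [hB, h3 _ (heW i) _ (heW j), mul_zero]
  -- the map `T`
  let T : X →ₗ[F] (Fin n → F) :=
    { toFun := fun y i => σ (B (e i) y)
      map_add' := by
        intro x y
        funext i
        simp only [Pi.add_apply, Baddr, map_add]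
      map_smul' := by
        intro c x
        funext i
        simp only [Pi.smul_apply, smul_eq_mul, RingHom.id_apply, Bsmulr, map_mul, h.inv] }
  have hT : ∀ y i, T y i = σ (B (e i) y) := fun _ _ => rfl
  have hTs : Function.Surjective T := by
    rw [← LinearMap.range_eq_top]
    by_contra hne
    obtain ⟨g, hg0, hg⟩ := Submodule.exists_le_ker_of_lt_top _ (lt_top_iff_ne_top.2 hne)
    apply hg0
    -- the functional `g`
    have h5 : ∀ v : Fin n → F, g v = ∑ i, v i * g (Pi.single i 1) := by
      intro v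
      conv_lhs => rw [pi_eq_sum_univ' v]
      rw [map_sum]
      refine Finset.sum_congr rfl fun i _ => ?_
      rw [map_smul, smul_eq_mul]
    have h6 : ∀ y, B (∑ i, σ (g (Pi.single i 1)) • e i) y = 0 := by
      intro y
      rw [Bsum]
      have h7 : g (T y) = 0 := hg (LinearMap.mem_range_self T y)
      rw [h5] at h7
      have h8 := congrArg σ h7
      rw [map_sum, map_zero] at h8
      rw [← h8]
      refine Finset.sum_congr rfl fun i _ => ?_
      rw [Bsmul, map_mul, hT, h.inv, mul_comm]
    have h9 := Bnd _ h6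
    have h10 := Fintype.linearIndependent_iff.1 heli _ h9
    apply LinearMap.ext
    intro v
    rw [h5, LinearMap.zero_apply]
    apply Finset.sum_eq_zero
    intro i _
    have h11 : σ (σ (g (Pi.single i 1))) = σ 0 := by rw [h10 i]
    rw [h.inv, map_zero] at h11
    rw [h11, mul_zero]
  -- dual vectors
  choose f hf' using fun j : Fin n => hTs (Pi.single j 1)
  have hef : ∀ i j, B (e i) (f j) = if i = j then 1 else 0 := by
    intro i j
    have h5 := congrFun (hf' j) i
    rw [hT] at h5
    have h6 := congrArg σ h5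
    rw [h.inv] at h6
    rw [h6, Pi.single_apply]
    split_ifs <;> simp
  -- correction
  have hdiag : ∀ i, ∃ c : F, c - σ c = B (f i) (f i) := by
    intro i
    obtain ⟨c, hc⟩ := exists_sub h (-B (f i) (f i)) (by
      rw [map_neg, neg_neg]
      exact (Bsym (f i) (f i)).symm)
    exact ⟨c, by rw [hc, neg_neg]⟩
  choose d hd using hdiag
  obtain ⟨C, hC⟩ : ∃ C : Fin n → Fin n → F, ∀ m j, C m j =
      if m = j then d j else if m < j then B (f m) (f j) else 0 := ⟨_, fun _ _ => rfl⟩
  -- `f' j = f j + ∑ m, C m j e m`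
  obtain ⟨f', hf''⟩ : ∃ f' : Fin n → X, ∀ j, f' j = f j + ∑ m, σ (C m j) • e m := ⟨_, fun _ => rfl⟩
  have hef' : ∀ i j, B (e i) (f' j) = if i = j then 1 else 0 := by
    intro i j
    rw [hf'', Baddr, hef, Bsumr]
    have : ∑ m, B (e i) (σ (C m j) • e m) = 0 := by
      apply Finset.sum_eq_zero
      intro m _
      rw [Bsmulr, heB, mul_zero]
    rw [this, add_zero]
  have hfe : ∀ i j, B (f i) (e j) = if i = j then -1 else 0 := by
    intro i j
    rw [Bsym (e j) (f i), hef]
    by_cases hij : i = j
    · subst hij; simp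
    · rw [if_neg (fun h' => hij h'.symm), if_neg hij]; simp
  have hff : ∀ i j, B (f' i) (f' j) = 0 := by
    intro i j
    have e1 : B (f' i) (f' j) = B (f i) (f j) + (∑ m, B (f i) (σ (C m j) • e m)) +
        ((∑ m, B (σ (C m i) • e m) (f j)) + ∑ m, B (σ (C m i) • e m) (∑ l, σ (C l j) • e l)) := by
      rw [hf'' i, hf'' j, Badd, Baddr, Bsum, Bsumr]
      congr 1
      rw [← Finset.sum_add_distrib]
      refine Finset.sum_congr rfl fun m _ => ?_
      rw [Baddr]
    have e2 : ∑ m, B (f i) (σ (C m j) • e m) = - C i j := by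
      rw [Finset.sum_eq_single i]
      · rw [Bsmulr, h.inv, hfe, if_pos rfl]; ring
      · intro m _ hm
        rw [Bsmulr, hfe, if_neg (fun h' => hm h'.symm), mul_zero]
      · intro h'; exact absurd (Finset.mem_univ i) h'
    have e3 : ∑ m, B (σ (C m i) • e m) (f j) = σ (C j i) := by
      rw [Finset.sum_eq_single j]
      · rw [Bsmul, hef, if_pos rfl, mul_one]
      · intro m _ hm
        rw [Bsmul, hef, if_neg hm, mul_zero]
      · intro h'; exact absurd (Finset.mem_univ j) h'
    have e4 : ∑ m, B (σ (C m i) • e m) (∑ l, σ (C l j) • e l) = 0 := by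
      apply Finset.sum_eq_zero
      intro m _
      rw [Bsumr]
      apply Finset.sum_eq_zero
      intro l _
      rw [Bsmul, Bsmulr, heB, mul_zero, mul_zero]
    rw [e1, e2, e3, e4, add_zero]
    rcases lt_trichotomy i j with hij | hij | hij
    · rw [hC i j, hC j i, if_neg hij.ne, if_neg hij.ne', if_pos hij, if_neg hij.not_gt, map_zero]
      ring
    · subst hij
      rw [hC i i, if_pos rfl, ← hd i]
      ring
    · rw [hC i j, hC j i, if_neg hij.ne', if_neg hij.ne, if_neg hij.not_gt, if_pos hij,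
        Bsym (f j) (f i)]
      ring
  have hfe' : ∀ i j, B (f' i) (e j) = if i = j then -1 else 0 := by
    intro i j
    rw [Bsym (e j) (f' i), hef']
    by_cases hij : i = j
    · subst hij; simp
    · rw [if_neg (fun h' => hij h'.symm), if_neg hij]; simp
  -- the isomorphism
  let ψ : ((Fin n → F) × (Fin n → F)) →ₗ[F] X :=
    { toFun := fun p => (∑ i, p.1 i • e i) + ∑ i, p.2 i • f' i
      map_add' := by
        intro p q
        simp only [Prod.fst_add, Prod.snd_add, Pi.add_apply, add_smul, Finset.sum_add_distrib]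
        abel
      map_smul' := by
        intro c p
        simp only [Prod.smul_fst, Prod.smul_snd, Pi.smul_apply, smul_eq_mul, mul_smul,
          RingHom.id_apply, smul_add, Finset.smul_sum] }
  have hψ : ∀ p, ψ p = (∑ i, p.1 i • e i) + ∑ i, p.2 i • f' i := fun _ => rfl
  have hψB : ∀ p q, B (ψ p) (ψ q) = hf σ p q := by
    intro p q
    have e1 : ∀ i, B (e i) (ψ q) = σ (q.2 i) := by
      intro i
      rw [hψ, Baddr, Bsumr, Bsumr]
      have a1 : ∑ j, B (e i) (q.1 j • e j) = 0 := by
        apply Finset.sum_eq_zero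
        intro j _
        rw [Bsmulr, heB, mul_zero]
      have a2 : ∑ j, B (e i) (q.2 j • f' j) = σ (q.2 i) := by
        rw [Finset.sum_eq_single i]
        · rw [Bsmulr, hef', if_pos rfl, mul_one]
        · intro j _ hj
          rw [Bsmulr, hef', if_neg (fun h' => hj h'.symm), mul_zero]
        · intro h'; exact absurd (Finset.mem_univ i) h'
      rw [a1, a2, zero_add]
    have e2 : ∀ i, B (f' i) (ψ q) = - σ (q.1 i) := by
      intro i
      rw [hψ, Baddr, Bsumr, Bsumr]
      have a1 : ∑ j, B (f' i) (q.2 j • f' j) = 0 := by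
        apply Finset.sum_eq_zero
        intro j _
        rw [Bsmulr, hff, mul_zero]
      have a2 : ∑ j, B (f' i) (q.1 j • e j) = - σ (q.1 i) := by
        rw [Finset.sum_eq_single i]
        · rw [Bsmulr, hfe', if_pos rfl]; ring
        · intro j _ hj
          rw [Bsmulr, hfe', if_neg (fun h' => hj h'.symm), mul_zero]
        · intro h'; exact absurd (Finset.mem_univ i) h'
      rw [a1, a2, add_zero]
    rw [hψ p, Badd, Bsum, Bsum]
    unfold hf ip
    rw [sub_eq_add_neg, ← Finset.sum_neg_distrib]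
    congr 1
    · refine Finset.sum_congr rfl fun i _ => ?_
      rw [Bsmul, e1]
    · refine Finset.sum_congr rfl fun i _ => ?_
      rw [Bsmul, e2]
      ring
  have hψi : Function.Injective ψ := by
    rw [injective_iff_map_eq_zero]
    intro p hp
    have h5 : ∀ q, hf σ p q = 0 := by
      intro q
      rw [← hψB, hp, Bzero]
    have h6 : ∀ i, p.1 i = 0 := by
      intro i
      have h7 := h5 (0, Pi.single i 1)
      unfold hf ip at h7
      simpa [Pi.single_apply, apply_ite σ] using h7
    have h8 : ∀ i, p.2 i = 0 := by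
      intro i
      have h7 := h5 (Pi.single i 1, 0)
      unfold hf ip at h7
      simpa [Pi.single_apply, apply_ite σ] using h7
    exact Prod.ext (funext h6) (funext h8)
  have hdim : finrank F ((Fin n → F) × (Fin n → F)) = finrank F X := by
    rw [h2, finrank_prod, finrank_fin_fun]
    ring
  let Φ := LinearMap.linearEquivOfInjective ψ hψi hdim
  have hΦ : ∀ p, Φ p = ψ p := fun _ => rfl
  refine ⟨δ, Φ.symm, hδ0, fun u v => ?_⟩
  rw [← hψB, ← hΦ, ← hΦ, Φ.apply_symm_apply, Φ.apply_symm_apply, hB]

end UN.UM
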