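import Pool.Agent.Helper60.UN.UA
import Pool.Agent.Helper60.UN.UB
import Pool.Agent.Helper60.UN.UC
import Pool.Agent.Helper60.UN.UD
import Pool.Agent.Helper60.UN.UE
import Pool.Agent.Helper60.SY.SMain

/-!
Project UN (MP_0bd1d1_al): the Siegel unipotent radical of the unitary group.
-/

namespace UN

open QuadraticMap Module OG SY
open UN.UA UN.UB UN.UC UN.UD UN.UE

section generic

theorem Bd_cliffordq {Ω E K R k V : Type*} [Group E] [MulAction E Ω] [Field K] [CommRing R]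
    [Algebra R K] [Field k] [AddCommGroup V] [Module k V] [IsLocalRing R]
    [Finite k] [Finite V] [IsDomain R] (e : V → E)
    (he : ∀ v w, e (v + w) = e v * e w) (ψ : AddChar k R) (hψ : ∃ c, ψ c ≠ 1)
    (hq : IsUnit ((Nat.card k : ℕ) : R)) {H : Set E} {S : Set Ω}
    (heH : ∀ v, e v ∈ H) {ι : Type*} (T : Finset ι) (L : ι → Module.Dual k V) (n : ι → ℕ)
    (h1 : ∀ c ∈ T, ∃ (H₀ : Set E) (B₀ : Set Ω), Bd R K H₀ B₀ (n c) ∧ H₀ ⊆ H ∧ Stb H₀ B₀ ∧
      (∀ h ∈ H₀, ∀ f : Ω → K, f ∈ Wt K e ψ (L c) → act h f ∈ Wt K e ψ (L c)) ∧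
      (∀ f : Ω → K, f ∈ Wt K e ψ (L c) → f ∈ supS R K S → (∀ w ∈ B₀, f w = 0) → f = 0))
    (h2 : ∀ l, (∀ f : Ω → K, f ∈ Wt K e ψ l → f ∈ supS R K S → f = 0) ∨
      ∃ c ∈ T, ∃ g ∈ H, g⁻¹ ∈ H ∧ ∀ f : Ω → K, f ∈ Wt K e ψ l → act g⁻¹ f ∈ Wt K e ψ (L c)) :
    Bd R K H S (∑ c ∈ T, n c) := by
  have hu : IsUnit ((Nat.card (Dual k V) : ℕ) : R) := by
    have : Finite (Dual k V) := Finite.of_injective (fun f : Dual k V => (f : V → k))
      DFunLike.coe_injective
    rw [Module.natCard_eq_pow_finrank (K := k), Nat.cast_pow]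
    exact hq.pow _
  exact Bd_clifford e he ψ hψ hu heH T L n h1 h2

end generic

variable {k F : Type*} [Field k] [Field F] [Algebra k F] {σ : F ≃ₐ[k] F} {n : ℕ}

section rad

theorem rk_add_right (x y y' : Fin n → F) : rk σ x (y + y') = rk σ x y + rk σ x y' := by
  refine LinearMap.ext (fun u => ?_)
  change ip σ u (y + y') • x = ip σ u y • x + ip σ u y' • x
  rw [ip_add_right, add_smul]

theorem mxU_add_left (x x' y : Fin n → F) : mxU σ (x + x') y = mxU σ x y + mxU σ x' y := by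
  unfold mxU
  rw [rk_add_right]
  have : rk σ (x + x') y = rk σ x y + rk σ x' y := by
    refine LinearMap.ext (fun u => ?_)
    change ip σ u y • (x + x') = ip σ u y • x + ip σ u y • x'
    rw [smul_add]
  rw [this]
  abel

/-- The radical of a functional. -/
def radU (h : QE σ) (m : Dual k ((Fin n → F) →ₗ[F] (Fin n → F))) :
    Submodule F (Fin n → F) where
  carrier := {a | ∀ x, m (mxU σ a x) = 0}
  zero_mem' := by
    intro x
    have : mxU σ (0 : Fin n → F) x = 0 := by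
      have h1 := mxU_smul h (0 : F) x x
      have h2 : mxU σ x (σ (0 : F) • x) = 0 := by
        rw [map_zero, zero_smul]
        refine LinearMap.ext (fun u => ?_)
        change ip σ u 0 • x + ip σ u x • (0 : Fin n → F) = 0
        have : ip σ u (0 : Fin n → F) = 0 := by simp [ip]
        rw [this, zero_smul, smul_zero, add_zero]
      rw [zero_smul, h2] at h1
      exact h1
    rw [this, map_zero]
  add_mem' := by
    intro a b ha hb x
    rw [mxU_add_left, map_add, ha x, hb x, add_zero]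
  smul_mem' := by
    intro c a ha x
    rw [mxU_smul h, ha]

theorem trace_ne (h : QE σ) : ∃ (c : F) (d : k), c + σ c = algebraMap k F d ∧ d ≠ 0 := by
  by_contra hcon
  push Not at hcon
  have h1 : ∀ c : F, c + σ c = 0 := by
    intro c
    obtain ⟨d, hd⟩ := h.fix (c + σ c) (by rw [map_add, h.inv, add_comm])
    have := hcon c d hd.symm
    rw [← hd, this, map_zero]
  have h2 : (1 : F) + 1 = 0 := by
    have := h1 1
    rwa [map_one] at this
  obtain ⟨c, hc⟩ := h.ne
  apply hc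
  have h3 := h1 c
  have h4 : c + c = 0 := by
    have : c * (1 + 1) = 0 := by rw [h2, mul_zero]
    rwa [mul_add, mul_one] at this
  have h5 : σ c = -c := by
    rw [eq_neg_iff_add_eq_zero, add_comm]
    exact h3
  rw [h5]
  exact (eq_neg_of_add_eq_zero_left h4).symm

theorem rad_sq (h : QE σ) (m : Dual k ((Fin n → F) →ₗ[F] (Fin n → F))) (a : Fin n → F)
    (ha : a ∈ radU h m) : m (sqU σ a) = 0 := by
  obtain ⟨c, d, hcd, hd⟩ := trace_ne h
  have h1 : m (mxU σ (c • a) a) = 0 := (radU h m).smul_mem c ha a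
  rw [mxU_self c d hcd, map_smul, smul_eq_mul] at h1
  exact (mul_eq_zero.1 h1).resolve_left hd

theorem rad_pres (h : QE σ) (m : Dual k ((Fin n → F) →ₗ[F] (Fin n → F)))
    {C : Submodule F (Fin n → F)} (hC : IsCompl (radU h m) C)
    (g : (Fin n → F) ≃ₗ[F] (Fin n → F)) (hg : ∀ z ∈ C, g z = z)
    (hg' : ∀ y ∈ radU h m, g y ∈ radU h m) (x : Fin n → F) :
    m (sqU σ (g x)) = m (sqU σ x) := by
  have hx : x ∈ radU h m ⊔ C := by
    rw [hC.sup_eq_top]
    exact Submodule.mem_top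
  obtain ⟨a, ha, c, hc, rfl⟩ := Submodule.mem_sup.1 hx
  have key : ∀ b ∈ radU h m, m (sqU σ (b + c)) = m (sqU σ c) := by
    intro b hb
    rw [sqU_add, map_add, map_add, rad_sq h m b hb, hb c, zero_add, add_zero]
  rw [map_add, hg c hc, key _ (hg' a ha), key _ ha]

end rad

section conj

/-- The inverse adjoint. -/
noncomputable def adj (h : QE σ) (g : (Fin n → F) ≃ₗ[F] (Fin n → F)) :
    (Fin n → F) ≃ₗ[F] (Fin n → F) :=
  (exists_adj h g).choose

theorem adj_spec (h : QE σ) (g : (Fin n → F) ≃ₗ[F] (Fin n → F)) : IsAdj σ g (adj h g) :=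
  (exists_adj h g).choose_spec

/-- Conjugation by the Levi subgroup. -/
def cjU (h : QE σ) (g g' : (Fin n → F) ≃ₗ[F] (Fin n → F)) (hg : IsAdj σ g g')
    (S : ↥(Her n σ)) : ↥(Her n σ) :=
  ⟨(g : (Fin n → F) →ₗ[F] (Fin n → F)) ∘ₗ S.1 ∘ₗ
    (g'.symm : (Fin n → F) →ₗ[F] (Fin n → F)), conjU_mem h g g' hg S.1 S.2⟩

theorem cjU_eq (h : QE σ) (g g' : (Fin n → F) ≃ₗ[F] (Fin n → F)) (hg : IsAdj σ g g')
    (m m₀ : Dual k ((Fin n → F) →ₗ[F] (Fin n → F)))
    (hm : ∀ x, m (sqU σ (g x)) = m₀ (sqU σ x)) (S : ↥(Her n σ)) :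
    m (cjU h g g' hg S).1 = m₀ S.1 := by
  have key : ∀ T ∈ Submodule.span k (Set.range (sqU (n := n) σ)),
      m ((g : (Fin n → F) →ₗ[F] (Fin n → F)) ∘ₗ T ∘ₗ
        (g'.symm : (Fin n → F) →ₗ[F] (Fin n → F))) = m₀ T := by
    intro T hT
    induction hT using Submodule.span_induction with
    | mem x hx =>
      obtain ⟨y, rfl⟩ := hx
      rw [sqU_conj h g g' hg, hm]
    | zero => rw [LinearMap.zero_comp, LinearMap.comp_zero, map_zero, map_zero]
    | add x y hx hy ihx ihy =>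
      rw [LinearMap.add_comp, LinearMap.comp_add, map_add, map_add, ihx, ihy]
    | smul c x hx ihx =>
      have h1 : (g : (Fin n → F) →ₗ[F] (Fin n → F)) ∘ₗ (c • x) ∘ₗ
          (g'.symm : (Fin n → F) →ₗ[F] (Fin n → F))
          = c • ((g : (Fin n → F) →ₗ[F] (Fin n → F)) ∘ₗ x ∘ₗ
          (g'.symm : (Fin n → F) →ₗ[F] (Fin n → F))) := by
        refine LinearMap.ext (fun u => ?_)
        change g (c • x (g'.symm u)) = c • g (x (g'.symm u))
        rw [← algebraMap_smul F c, map_smul, algebraMap_smul]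
      rw [h1, map_smul, map_smul, ihx]
  exact key S.1 (span_sqU h S.2)

end conj

section main

variable {K R : Type*} [Field K] [CommRing R] [IsDomain R] [Algebra R K] [IsFractionRing R K]
  {ψ : AddChar k R}

/-- The Siegel unipotent subgroup. -/
def eU (S : ↥(Her n σ)) : ((Fin n → F) × (Fin n → F)) ≃ₗ[F] ((Fin n → F) × (Fin n → F)) :=
  uU S.1

variable (K) in
/-- Functions of weight `m`. -/
def WU (σ : F ≃ₐ[k] F) (ψ : AddChar k R) (m : Dual k ((Fin n → F) →ₗ[F] (Fin n → F))) :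
    Submodule R (Submodule F ((Fin n → F) × (Fin n → F)) → K) :=
  Wt K (eU (n := n) (σ := σ)) ψ (m.domRestrict (Her n σ))

theorem WU_conj (h : QE σ) (g g' : (Fin n → F) ≃ₗ[F] (Fin n → F)) (hg : IsAdj σ g g')
    (m m₀ : Dual k ((Fin n → F) →ₗ[F] (Fin n → F)))
    (hm : ∀ x, m (sqU σ (g x)) = m₀ (sqU σ x))
    {f : Submodule F ((Fin n → F) × (Fin n → F)) → K} (hf : f ∈ WU K σ ψ m) :
    act (gU g g')⁻¹ f ∈ WU K σ ψ m₀ :=
  Wt_conj (gU g g') (cjU h g g' hg) (fun S => gU_conj g g' S.1)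
    (fun S => cjU_eq h g g' hg m m₀ hm S) hf

theorem vanishU (h : QE σ) (hψ : ∃ c, ψ c ≠ 1)
    (m : Dual k ((Fin n → F) →ₗ[F] (Fin n → F)))
    {f : Submodule F ((Fin n → F) × (Fin n → F)) → K} (hf : f ∈ WU K σ ψ m)
    (hs : f ∈ supS R K (Lag n σ)) (h0 : ∀ A ≤ radU h m, f (bpU σ A) = 0) : f = 0 := by
  funext W
  by_cases hW : W ∈ Lag n σ
  · obtain ⟨A, S, hS, rfl⟩ := orbU h W hW
    apply Wt_translate hf ⟨S, hS⟩ (bpU σ A)
    by_contra hne
    apply hne
    apply h0
    intro a ha x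
    refine Wt_zero_on hψ hf (bpU σ A) hne (Submodule.span k {⟨mxU σ a x, mxU_mem h a x⟩}) ?_ _
        (Submodule.mem_span_singleton_self _)
    intro v hv
    obtain ⟨c, rfl⟩ := Submodule.mem_span_singleton.1 hv
    exact stU h A a ha x c
  · exact hs W hW

theorem Bd_U [ValuationRing R] [Finite k] (h : QE σ) (hψ : ∃ c, ψ c ≠ 1)
    (hq : IsUnit ((Nat.card k : ℕ) : R)) {χ : AddChar F R} (hχ : ∃ c, χ c ≠ 1) :
    Bd R K (GUg n σ : Set (((Fin n → F) × (Fin n → F)) ≃ₗ[F] ((Fin n → F) × (Fin n → F))))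
      (Lag n σ) ((n + 1) * 16 ^ n) := by
  classical
  have hFD : FiniteDimensional k F := Module.finite_of_finrank_pos (by rw [h.dim]; norm_num)
  have hFf : Finite F := Module.finite_of_finite k
  have hqF : IsUnit ((Nat.card F : ℕ) : R) := by
    rw [Module.natCard_eq_pow_finrank (K := k), Nat.cast_pow]
    exact hq.pow _
  have hfL : Finite ((Fin n → F) →ₗ[F] (Fin n → F)) := Module.finite_of_finite F
  have hfH : Finite ↥(Her n σ) := Subtype.finite
  obtain ⟨cl, hcl⟩ := her_classes (n := n) h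
  have hadd : ∀ S T : ↥(Her n σ), eU (S + T) = eU S * eU T := fun S T => uU_add S.1 T.1
  have heH : ∀ S : ↥(Her n σ), eU S ∈ (GUg n σ :
      Set (((Fin n → F) × (Fin n → F)) ≃ₗ[F] ((Fin n → F) × (Fin n → F)))) :=
    fun S => uU_mem h S.1 S.2
  let L : (Fin n → Fin 2) → Dual k ((Fin n → F) →ₗ[F] (Fin n → F)) := fun c =>
    if h : ∃ m, cl m = c then h.choose else 0
  have hL : ∀ m, cl (L (cl m)) = cl m := by
    intro m
    have hex : ∃ m', cl m' = cl m := ⟨m, rfl⟩
    have : L (cl m) = hex.choose := dif_pos hex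
    rw [this]
    exact hex.choose_spec
  have main := Bd_cliffordq (K := K) (R := R) (S := Lag n σ) eU hadd ψ hψ hq heH
    (Finset.univ : Finset (Fin n → Fin 2)) (fun c => (L c).domRestrict (Her n σ))
    (fun _ => (n + 1) * 8 ^ n) ?_ ?_
  · refine Bd_mono main subset_rfl subset_rfl ?_
    rw [Finset.sum_const, Finset.card_univ, Fintype.card_fun, Fintype.card_fin,
      Fintype.card_fin, smul_eq_mul]
    have : (16 : ℕ) ^ n = 2 ^ n * 8 ^ n := by
      rw [← mul_pow]
      norm_num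
    rw [this]
    apply le_of_eq
    ring
  · intro c _
    set m := L c with hm
    obtain ⟨C, hC⟩ := Submodule.exists_isCompl (radU h m)
    have hOD : OD (0 : QuadraticForm F (Fin n → F)) (radU h m) C := by
      refine ⟨hC, ?_⟩
      intro y _ z _
      simp [polar]
    have hst : ∀ i, Stb (GD (0 : QuadraticForm F (Fin n → F)) (radU h m) C)
        (PK (0 : QuadraticForm F (Fin n → F)) (radU h m) i i) := fun i => D1.PK_stb
    have hfr : finrank F (radU h m) ≤ n := by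
      have := Submodule.finrank_le (radU h m)
      rwa [Module.finrank_fin_fun] at this
    obtain ⟨hst2, hB2⟩ := Bd_iUnion (R := R) (K := K)
      (H := GD (0 : QuadraticForm F (Fin n → F)) (radU h m) C)
      (fun i => PK (0 : QuadraticForm F (Fin n → F)) (radU h m) i i) (8 ^ n) (n + 1)
      (fun i _ => hst i)
      (fun i _ => Bd_mono (Bd_D hχ hqF _ _ _ hOD rfl i i) subset_rfl subset_rfl
        (Nat.pow_le_pow_right (by norm_num) hfr))
    have hB3 := Bd_transport (fun g => gU g (adj h g)) (fun w => bpU σ w.1) hst2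
      (fun g _ w _ => (bpU_smul g _ (adj_spec h g) w.1).symm) hB2
    have hpres : ∀ g ∈ GD (0 : QuadraticForm F (Fin n → F)) (radU h m) C, ∀ x,
        m (sqU σ (g x)) = m (sqU σ x) := fun g hg x =>
      rad_pres h m hC g hg.2.1 hg.2.2 x
    refine ⟨_, _, hB3, ?_, ?_, ?_, ?_⟩
    · rintro _ ⟨g, _, rfl⟩
      exact gU_mem h g _ (adj_spec h g)
    · rintro _ ⟨g, hg, rfl⟩ W
      constructor
      · rintro ⟨w, hw, hwW⟩
        refine ⟨g⁻¹ • w, (Stb_inv hst2 hg w).2 hw, ?_⟩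
        have h1 := bpU_smul g _ (adj_spec h g) (g⁻¹ • w.1)
        rw [smul_inv_smul] at h1
        have h2 : bpU σ (g⁻¹ • w.1) = (gU g (adj h g))⁻¹ • bpU σ w.1 := by
          rw [← h1, inv_smul_smul]
        change bpU σ (g⁻¹ • w.1) = W
        rw [h2]
        have hwW' : bpU σ w.1 = gU g (adj h g) • W := hwW
        rw [hwW', inv_smul_smul]
      · rintro ⟨w, hw, rfl⟩
        exact ⟨g • w, (hst2 g hg w).2 hw, (bpU_smul g _ (adj_spec h g) w.1).symm⟩
    · rintro _ ⟨g, hg, rfl⟩ f hf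
      have hgi : g⁻¹ ∈ GD (0 : QuadraticForm F (Fin n → F)) (radU h m) C := D1.GD_inv g hg
      have h3 := WU_conj h g⁻¹ (adj h g)⁻¹ (adj_inv g _ (adj_spec h g)) m m
        (hpres _ hgi) hf
      rw [← gU_inv, inv_inv] at h3
      exact h3
    · intro f hf hs h0
      refine vanishU h hψ m hf hs ?_
      intro A hA
      refine h0 _ ⟨(A, A), ⟨finrank F A, ?_, ?_⟩, rfl⟩
      · have := Submodule.finrank_le A
        rw [Module.finrank_fin_fun] at this
        exact Nat.lt_succ_of_le this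
      · refine ⟨le_rfl, hA, rfl, rfl, fun x _ => rfl, ?_⟩
        intro x _ y _
        simp [polar]
  · intro l
    right
    obtain ⟨m, hm⟩ := LinearMap.exists_extend l
    have hm' : m.domRestrict (Her n σ) = l := hm
    obtain ⟨g, hg⟩ := hcl m (L (cl m)) (hL m).symm
    refine ⟨cl m, Finset.mem_univ _, gU g (adj h g), gU_mem h g _ (adj_spec h g),
      inv_mem (gU_mem h g _ (adj_spec h g)), fun f hf => ?_⟩
    rw [← hm'] at hf
    exact WU_conj h g _ (adj_spec h g) m _ hg hf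

end main

end UN
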